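import Mathlib

/-!
# Braid groups, the Artin action, order-preserving braids and the reduced Burau representation
-/

set_option linter.unusedSimpArgs false

namespace Pool.Agent.Work.MP_6f07cb_gt

open FreeGroup (of)
open scoped LaurentPolynomial

/-- The relators of Artin's presentation of the braid group on `m + 1` strands, with generators
`s i` for `i : Fin m`: the relators `s i * s j * s i * (s j * s i * s j)⁻¹` for `j = i + 1` and the
relators `s i * s j * (s j * s i)⁻¹` for `j ≥ i + 2`. The braid group on `m + 1` strands is
`PresentedGroup (braidRels m)`. -/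
def braidRels (m : ℕ) : Set (FreeGroup (Fin m)) :=
  {r | ∃ i j : Fin m, (i : ℕ) + 1 = j ∧ r = of i * of j * of i * (of j * of i * of j)⁻¹} ∪
  {r | ∃ i j : Fin m, (i : ℕ) + 2 ≤ j ∧ r = of i * of j * (of j * of i)⁻¹}

variable {m : ℕ}

/-- The images of the generators of the free group on `x 0, ..., x m` (the fundamental group of the
disk with `m + 1` punctures) under the Artin automorphism of `s i`:
`x i ↦ x i * x (i+1) * (x i)⁻¹`, `x (i+1) ↦ x i`, and `x j ↦ x j` for the other `j`. -/
def artinFun (i : Fin m) (j : Fin (m + 1)) : FreeGroup (Fin (m + 1)) :=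
  if j = i.castSucc then of i.castSucc * of i.succ * (of i.castSucc)⁻¹
  else if j = i.succ then of i.castSucc
  else of j

/-- The images of the generators under the inverse of the Artin automorphism of `s i`. -/
def artinInvFun (i : Fin m) (j : Fin (m + 1)) : FreeGroup (Fin (m + 1)) :=
  if j = i.castSucc then of i.succ
  else if j = i.succ then (of i.succ)⁻¹ * of i.castSucc * of i.succ
  else of j

theorem castSucc_ne_succ (i : Fin m) : i.castSucc ≠ i.succ := by
  intro h
  have := congrArg Fin.val h
  simp at this

theorem artin_left_inv (i : Fin m) :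
    (FreeGroup.lift (artinInvFun i)).comp (FreeGroup.lift (artinFun i)) = MonoidHom.id _ := by
  ext j
  by_cases h1 : j = i.castSucc
  · subst h1
    simp [artinFun, artinInvFun, (castSucc_ne_succ i).symm]
    group
  · by_cases h2 : j = i.succ
    · subst h2
      simp [artinFun, artinInvFun, (castSucc_ne_succ i).symm]
    · simp [artinFun, artinInvFun, h1, h2]

theorem artin_right_inv (i : Fin m) :
    (FreeGroup.lift (artinFun i)).comp (FreeGroup.lift (artinInvFun i)) = MonoidHom.id _ := by
  ext j
  by_cases h1 : j = i.castSucc
  · subst h1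
    simp [artinFun, artinInvFun, (castSucc_ne_succ i).symm]
  · by_cases h2 : j = i.succ
    · subst h2
      simp [artinFun, artinInvFun, (castSucc_ne_succ i).symm]
      group
    · simp [artinFun, artinInvFun, h1, h2]

/-- The Artin automorphism of the free group attached to the generator `s i`. -/
def artinGen (i : Fin m) : MulAut (FreeGroup (Fin (m + 1))) :=
  MonoidHom.toMulEquiv (FreeGroup.lift (artinFun i)) (FreeGroup.lift (artinInvFun i))
    (artin_left_inv i) (artin_right_inv i)

theorem artinGen_of (i : Fin m) (j : Fin (m + 1)) : artinGen i (of j) = artinFun i j := by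
  simp [artinGen]

theorem artinGen_rel (r : FreeGroup (Fin m)) (hr : r ∈ braidRels m) :
    FreeGroup.lift artinGen r = 1 := by
  rcases hr with ⟨i, j, hij, rfl⟩ | ⟨i, j, hij, rfl⟩
  · have hj : j.castSucc = i.succ := by
      ext; simp [← hij]
    have e1 : i.castSucc ≠ i.succ := castSucc_ne_succ i
    have e2 : i.succ ≠ j.succ := by
      intro h; have := congrArg Fin.val h; simp at this; omega
    have e3 : i.castSucc ≠ j.succ := by
      intro h; have := congrArg Fin.val h; simp at this; omega
    rw [map_mul, map_inv, mul_inv_eq_one]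
    apply MulEquiv.toMonoidHom_injective
    ext k
    simp only [map_mul, FreeGroup.lift_apply_of, MulEquiv.toMonoidHom_eq_coe, MonoidHom.coe_coe,
      MulAut.mul_apply]
    by_cases h1 : k = i.castSucc
    · subst h1
      simp [artinGen_of, artinFun, hj, e1, e2, e3, e1.symm, e2.symm, e3.symm]
      group
    · by_cases h2 : k = i.succ
      · subst h2
        simp [artinGen_of, artinFun, hj, e1, e2, e3, e1.symm, e2.symm, e3.symm]
      · by_cases h3 : k = j.succ
        · subst h3
          simp [artinGen_of, artinFun, hj, e1, e2, e3, e1.symm, e2.symm, e3.symm]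
        · simp [artinGen_of, artinFun, hj, h1, h2, h3]
  · have e1 : i.castSucc ≠ j.castSucc := by
      intro h; have := congrArg Fin.val h; simp at this; omega
    have e2 : i.castSucc ≠ j.succ := by
      intro h; have := congrArg Fin.val h; simp at this; omega
    have e3 : i.succ ≠ j.castSucc := by
      intro h; have := congrArg Fin.val h; simp at this; omega
    have e4 : i.succ ≠ j.succ := by
      intro h; have := congrArg Fin.val h; simp at this; omega
    have e5 : i.castSucc ≠ i.succ := castSucc_ne_succ i
    have e6 : j.castSucc ≠ j.succ := castSucc_ne_succ j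
    rw [map_mul, map_inv, mul_inv_eq_one]
    apply MulEquiv.toMonoidHom_injective
    ext k
    simp only [map_mul, FreeGroup.lift_apply_of, MulEquiv.toMonoidHom_eq_coe, MonoidHom.coe_coe,
      MulAut.mul_apply]
    by_cases h1 : k = i.castSucc
    · subst h1
      simp [artinGen_of, artinFun, e1, e2, e3, e4, e5, e6, e1.symm, e2.symm, e3.symm, e4.symm,
        e5.symm, e6.symm]
    · by_cases h2 : k = i.succ
      · subst h2
        simp [artinGen_of, artinFun, e1, e2, e3, e4, e5, e6, e1.symm, e2.symm, e3.symm, e4.symm,
          e5.symm, e6.symm]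
      · by_cases h3 : k = j.castSucc
        · subst h3
          simp [artinGen_of, artinFun, e1, e2, e3, e4, e5, e6, e1.symm, e2.symm, e3.symm,
            e4.symm, e5.symm, e6.symm]
        · by_cases h4 : k = j.succ
          · subst h4
            simp [artinGen_of, artinFun, e1, e2, e3, e4, e5, e6, e1.symm, e2.symm, e3.symm,
              e4.symm, e5.symm, e6.symm]
          · simp [artinGen_of, artinFun, h1, h2, h3, h4]

/-- The Artin action of the braid group on `m + 1` strands on the free group of rank `m + 1`. -/
def artin (m : ℕ) : PresentedGroup (braidRels m) →* MulAut (FreeGroup (Fin (m + 1))) :=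
  PresentedGroup.toGroup artinGen_rel

/-- A bi-order of a group, as a strict total order invariant under left and right
multiplication. -/
structure IsBiOrder {G : Type*} [Group G] (r : G → G → Prop) : Prop where
  irrefl : ∀ a, ¬ r a a
  trans : ∀ a b c, r a b → r b c → r a c
  total : ∀ a b, r a b ∨ a = b ∨ r b a
  mul_left : ∀ a b c, r a b → r (c * a) (c * b)
  mul_right : ∀ a b c, r a b → r (a * c) (b * c)

/-- A braid on `m + 1` strands is order-preserving when its Artin automorphism preserves some
bi-order of the free group. (Bi-orders are invariant under inner automorphisms, so this only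
depends on the class of the automorphism modulo inner automorphisms.) -/
def OrderPreserving {m : ℕ} (β : PresentedGroup (braidRels m)) : Prop :=
  ∃ r : FreeGroup (Fin (m + 1)) → FreeGroup (Fin (m + 1)) → Prop,
    IsBiOrder r ∧ ∀ a b, r a b ↔ r (artin m β a) (artin m β b)

/-- Total winding number around the punctures. -/
def winding (m : ℕ) : FreeGroup (Fin (m + 1)) →* Multiplicative ℤ :=
  FreeGroup.lift fun _ => Multiplicative.ofAdd 1

theorem winding_artinFun (i : Fin m) (j : Fin (m + 1)) :
    winding m (artinFun i j) = Multiplicative.ofAdd 1 := by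
  unfold artinFun winding
  split_ifs
  · rw [map_mul, map_mul, map_inv]; simp
  · simp
  · simp

theorem winding_artin (β : PresentedGroup (braidRels m)) (g : FreeGroup (Fin (m + 1))) :
    winding m (artin m β g) = winding m g := by
  have hgen : ∀ i g, winding m (artinGen i g) = winding m g := by
    intro i g
    have : (winding m).comp (artinGen i).toMonoidHom = winding m := by
      ext j
      simp only [MonoidHom.comp_apply, MulEquiv.toMonoidHom_eq_coe, MonoidHom.coe_coe,
        artinGen_of, winding_artinFun]
      simp [winding]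
    exact DFunLike.congr_fun this g
  have hw : ∀ (w : FreeGroup (Fin m)) (g : FreeGroup (Fin (m + 1))),
      winding m (FreeGroup.lift artinGen w g) = winding m g := by
    intro w
    induction w using FreeGroup.induction_on with
    | C1 => intro g; simp
    | of i => intro g; rw [FreeGroup.lift_apply_of, hgen]
    | inv_of i h =>
      intro g
      rw [← h (FreeGroup.lift artinGen (FreeGroup.of i)⁻¹ g), map_inv, MulAut.apply_inv_self]
    | mul a b ha hb => intro g; rw [map_mul, MulAut.mul_apply, ha, hb]
  induction β using PresentedGroup.induction_on with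
  | _ z => exact hw z g

section Cyclic

/-- The endomorphism of the abelianization, written additively, induced by an endomorphism of a
group. -/
def abEnd {K : Type} [Group K] (φ : K →* K) : AddMonoid.End (Additive (Abelianization K)) :=
  MonoidHom.toAdditive (Abelianization.map φ)

theorem abEnd_one {K : Type} [Group K] : abEnd (MonoidHom.id K) = 1 := by
  apply AddMonoidHom.ext
  intro x
  obtain ⟨k, hk⟩ := QuotientGroup.mk_surjective (Additive.toMul x : Abelianization K)
  obtain rfl : Additive.ofMul (Abelianization.of k) = x := hk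
  rfl

theorem abEnd_comp {K : Type} [Group K] (φ ψ : K →* K) :
    abEnd (φ.comp ψ) = abEnd φ * abEnd ψ := by
  apply AddMonoidHom.ext
  intro x
  obtain ⟨k, hk⟩ := QuotientGroup.mk_surjective (Additive.toMul x : Abelianization K)
  obtain rfl : Additive.ofMul (Abelianization.of k) = x := hk
  rfl

variable {G : Type} [Group G] {w : G →* Multiplicative ℤ} {x : G}

theorem conjK_mem (g : G) (k : w.ker) : g * k * g⁻¹ ∈ w.ker := by
  have h : w k = 1 := k.2
  rw [MonoidHom.mem_ker, map_mul, map_mul, h, map_inv, mul_one, mul_inv_cancel]

/-- Conjugation by `g` as an endomorphism of the kernel `K` of `w`. -/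
def conjK (w : G →* Multiplicative ℤ) (g : G) : w.ker →* w.ker where
  toFun k := ⟨g * k * g⁻¹, conjK_mem g k⟩
  map_one' := by apply Subtype.ext; simp
  map_mul' a b := by apply Subtype.ext; simp

theorem conjK_coe (g : G) (k : w.ker) : (conjK w g k : G) = g * k * g⁻¹ := rfl

theorem conjK_one : conjK w 1 = MonoidHom.id w.ker := by
  ext k
  simp [conjK_coe]

theorem conjK_mul (g h : G) : conjK w (g * h) = (conjK w g).comp (conjK w h) := by
  ext k
  simp only [conjK_coe, MonoidHom.comp_apply]
  group

theorem shift_one : abEnd (conjK w (x ^ Multiplicative.toAdd (1 : Multiplicative ℤ))) = 1 := by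
  rw [toAdd_one, zpow_zero, conjK_one, abEnd_one]

theorem shift_mul (a b : Multiplicative ℤ) :
    abEnd (conjK w (x ^ Multiplicative.toAdd (a * b))) =
      abEnd (conjK w (x ^ Multiplicative.toAdd a)) * abEnd (conjK w (x ^ Multiplicative.toAdd b)) := by
  rw [toAdd_mul, zpow_add, conjK_mul, abEnd_comp]

/-- The action of the infinite cyclic group on the abelianization of the kernel `K` of `w`: the
integer `n` acts by `k ↦ x ^ n * k * x ^ (-n)`. -/
def shift (w : G →* Multiplicative ℤ) (x : G) :
    Multiplicative ℤ →* AddMonoid.End (Additive (Abelianization w.ker)) where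
  toFun n := abEnd (conjK w (x ^ Multiplicative.toAdd n))
  map_one' := shift_one
  map_mul' := shift_mul

/-- The action of the Laurent polynomials on the abelianization of the kernel of `w` which extends
`shift`. -/
noncomputable def laurentAct (w : G →* Multiplicative ℤ) (x : G) :
    ℤ[T;T⁻¹] →ₐ[ℤ] AddMonoid.End (Additive (Abelianization w.ker)) :=
  AddMonoidAlgebra.lift ℤ (AddMonoid.End (Additive (Abelianization w.ker))) ℤ (shift w x)

theorem laurentAct_T (n : ℤ) : laurentAct w x (LaurentPolynomial.T n) =
    abEnd (conjK w (x ^ n)) := by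
  unfold laurentAct LaurentPolynomial.T
  erw [AddMonoidAlgebra.lift_single]
  simp [shift]

/-- The abelianization of the kernel of `w`, written additively; it is the first homology group of
the infinite cyclic cover given by `w`. It is a module over the Laurent polynomials, whose variable
`T` acts by conjugation by `x`. -/
def CycH1 {G : Type} [Group G] (w : G →* Multiplicative ℤ) (_x : G) : Type :=
  Additive (Abelianization w.ker)

/-- The group structure. -/
instance : AddCommGroup (CycH1 w x) :=
  Additive.addCommGroup (α := Abelianization w.ker)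

/-- The module structure. -/
noncomputable instance : Module ℤ[T;T⁻¹] (CycH1 w x) where
  smul p v := laurentAct w x p v
  one_smul v := by
    change laurentAct w x 1 v = v
    rw [map_one]; rfl
  mul_smul p q v := by
    change laurentAct w x (p * q) v = laurentAct w x p (laurentAct w x q v)
    rw [map_mul]; rfl
  smul_zero p := map_zero (laurentAct w x p)
  smul_add p := map_add (laurentAct w x p)
  add_smul p q v := by
    change laurentAct w x (p + q) v = laurentAct w x p v + laurentAct w x q v
    rw [map_add]; rfl
  zero_smul v := by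
    change laurentAct w x 0 v = 0
    rw [map_zero]; rfl

/-- The class of an element of the kernel. -/
def cls (x : G) (k : w.ker) : CycH1 w x := Additive.ofMul (Abelianization.of k)

theorem cls_surj (v : CycH1 w x) : ∃ k : w.ker, cls x k = v := by
  obtain ⟨k, hk⟩ := QuotientGroup.mk_surjective (Additive.toMul v : Abelianization w.ker)
  exact ⟨k, hk⟩

theorem cls_mul (a b : w.ker) : cls x (a * b) = cls x a + cls x b := rfl

theorem cls_one : cls x (1 : w.ker) = 0 := rfl

theorem cls_inv (a : w.ker) : cls x (a⁻¹) = - cls x a := rfl

theorem cls_conj (a b : w.ker) : cls x (a * b * a⁻¹) = cls x b := by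
  rw [cls_mul, cls_mul, cls_inv]; abel

theorem T_smul_cls (n : ℤ) (k : w.ker) :
    (LaurentPolynomial.T n : ℤ[T;T⁻¹]) • cls x k = cls x (conjK w (x ^ n) k) := by
  change (laurentAct w x (LaurentPolynomial.T n)) (cls x k) = _
  rw [laurentAct_T]
  rfl

end Cyclic

theorem map_laurent_smul {M N : Type*} [AddCommGroup M] [AddCommGroup N] [Module ℤ[T;T⁻¹] M]
    [Module ℤ[T;T⁻¹] N] (f : M →+ N)
    (hf : ∀ (n : ℤ) x, f ((LaurentPolynomial.T n : ℤ[T;T⁻¹]) • x) =
      (LaurentPolynomial.T n : ℤ[T;T⁻¹]) • f x) (p : ℤ[T;T⁻¹]) (x : M) :
    f (p • x) = p • f x := by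
  have hC : ∀ (a : ℤ) (x : M), f ((LaurentPolynomial.C a : ℤ[T;T⁻¹]) • x) =
      (LaurentPolynomial.C a : ℤ[T;T⁻¹]) • f x := by
    intro a x
    have h1 : (LaurentPolynomial.C a : ℤ[T;T⁻¹]) = ((a : ℤ) : ℤ[T;T⁻¹]) := by simp
    rw [h1, Int.cast_smul_eq_zsmul, Int.cast_smul_eq_zsmul, map_zsmul]
  induction p using LaurentPolynomial.induction_on' with
  | add p q hp hq => rw [add_smul, add_smul, map_add, hp, hq]
  | C_mul_T n a => rw [mul_smul, mul_smul, hC, hf]

section Induced

variable {G : Type} [Group G] {w : G →* Multiplicative ℤ} {x : G}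

theorem map_mem_ker (φ : G →* G) (h : ∀ g, w (φ g) = w g) (k : w.ker) : φ k ∈ w.ker := by
  rw [MonoidHom.mem_ker, h]
  exact k.2

/-- The restriction to the kernel of `w` of an endomorphism which preserves `w`. -/
def kerMap (φ : G →* G) (h : ∀ g, w (φ g) = w g) : w.ker →* w.ker where
  toFun k := ⟨φ k, map_mem_ker φ h k⟩
  map_one' := Subtype.ext (map_one φ)
  map_mul' a b := Subtype.ext (map_mul φ (a : G) b)

theorem kerMap_coe (φ : G →* G) (h : ∀ g, w (φ g) = w g) (k : w.ker) :
    (kerMap φ h k : G) = φ k := rfl

/-- The additive endomorphism of `CycH1 w x` induced by an endomorphism which preserves `w`. -/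
def cycAdd (φ : G →* G) (h : ∀ g, w (φ g) = w g) (x : G) : CycH1 w x →+ CycH1 w x :=
  abEnd (kerMap φ h)

theorem cycAdd_cls (φ : G →* G) (h : ∀ g, w (φ g) = w g) (k : w.ker) :
    cycAdd φ h x (cls x k) = cls x (kerMap φ h k) := rfl

theorem cycAdd_T (φ : G →* G) (h : ∀ g, w (φ g) = w g) (n : ℤ) (v : CycH1 w x) :
    cycAdd φ h x ((LaurentPolynomial.T n : ℤ[T;T⁻¹]) • v) =
      (LaurentPolynomial.T n : ℤ[T;T⁻¹]) • cycAdd φ h x v := by
  obtain ⟨k, rfl⟩ := cls_surj v
  rw [T_smul_cls, cycAdd_cls, cycAdd_cls, T_smul_cls]
  -- the image of `x ^ n` is `x ^ n` up to an element of the kernel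
  have hg : (x ^ n)⁻¹ * φ (x ^ n) ∈ w.ker := by
    rw [MonoidHom.mem_ker, map_mul, h, map_inv, inv_mul_cancel]
  have h1 : kerMap φ h (conjK w (x ^ n) k) =
      conjK w (x ^ n) ((⟨_, hg⟩ : w.ker) * kerMap φ h k * (⟨_, hg⟩ : w.ker)⁻¹) := by
    apply Subtype.ext
    simp only [kerMap_coe, conjK_coe, Subgroup.coe_mul, Subgroup.coe_inv, map_mul, map_inv]
    group
  rw [h1, ← T_smul_cls, ← T_smul_cls, cls_conj]

/-- The endomorphism of `CycH1 w x` induced by an endomorphism which preserves `w`, linear over the
Laurent polynomials. -/
noncomputable def cycMap (φ : G →* G) (h : ∀ g, w (φ g) = w g) (x : G) :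
    CycH1 w x →ₗ[ℤ[T;T⁻¹]] CycH1 w x where
  toFun := cycAdd φ h x
  map_add' := map_add (cycAdd φ h x)
  map_smul' := map_laurent_smul (cycAdd φ h x) (cycAdd_T φ h)

end Induced

/-- The first homology group `H_1(K)` of the infinite cyclic cover of the disk with `m + 1`
punctures, as a module over the Laurent polynomials. -/
abbrev H1K (m : ℕ) : Type := CycH1 (winding m) (of (0 : Fin (m + 1)))

/-- The reduced Burau representation: the action of a braid on `H_1(K)`. -/
noncomputable def burau (β : PresentedGroup (braidRels m)) : H1K m →ₗ[ℤ[T;T⁻¹]] H1K m :=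
  cycMap (artin m β).toMonoidHom (winding_artin β) (of (0 : Fin (m + 1)))

end Pool.Agent.Work.MP_6f07cb_gt
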