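import Mathlib
import Pool.Agent.Work.MP_6f07cb_gt.Defs

/-!
# `H_1(K)` is free over the Laurent polynomials
-/

set_option linter.unusedSimpArgs false

namespace Pool.Agent.Work.MP_6f07cb_gt

open FreeGroup (of)
open scoped LaurentPolynomial

variable {m : ℕ}

section Cocycle

variable {M : Type*} [AddCommGroup M] [Module ℤ[T;T⁻¹] M]

/-- Exponent of the winding number. -/
def wnd (g : FreeGroup (Fin (m + 1))) : ℤ := Multiplicative.toAdd (winding m g)

theorem wnd_mul (g h : FreeGroup (Fin (m + 1))) : wnd (g * h) = wnd g + wnd h := by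
  simp [wnd]

theorem wnd_inv (g : FreeGroup (Fin (m + 1))) : wnd g⁻¹ = - wnd g := by
  simp [wnd]

theorem wnd_one : wnd (1 : FreeGroup (Fin (m + 1))) = 0 := by
  simp [wnd]

theorem wnd_of (j : Fin (m + 1)) : wnd (of j : FreeGroup (Fin (m + 1))) = 1 := by
  simp [wnd, winding]

theorem wnd_K (k : (winding m).ker) : wnd (k : FreeGroup (Fin (m + 1))) = 0 := by
  have h : winding m k = 1 := k.2
  simp [wnd, h]

/-- Crossed homomorphisms. -/
def IsCoc (f : FreeGroup (Fin (m + 1)) → M) : Prop :=
  ∀ g h, f (g * h) = f g + (LaurentPolynomial.T (wnd g) : ℤ[T;T⁻¹]) • f h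

theorem IsCoc.one {f : FreeGroup (Fin (m + 1)) → M} (hf : IsCoc f) : f 1 = 0 := by
  have := hf 1 1
  rw [mul_one, wnd_one, LaurentPolynomial.T_zero, one_smul] at this
  simpa using this

theorem IsCoc.inv {f : FreeGroup (Fin (m + 1)) → M} (hf : IsCoc f) (g : FreeGroup (Fin (m + 1))) :
    f g⁻¹ = - ((LaurentPolynomial.T (-wnd g) : ℤ[T;T⁻¹]) • f g) := by
  have := hf g⁻¹ g
  rw [inv_mul_cancel, hf.one, wnd_inv] at this
  exact eq_neg_of_add_eq_zero_left this.symm

theorem IsCoc.ext {f f' : FreeGroup (Fin (m + 1)) → M} (hf : IsCoc f) (hf' : IsCoc f')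
    (h : ∀ j, f (of j) = f' (of j)) (g : FreeGroup (Fin (m + 1))) : f g = f' g := by
  induction g using FreeGroup.induction_on with
  | C1 => rw [hf.one, hf'.one]
  | of j => exact h j
  | inv_of j ih => rw [hf.inv, hf'.inv, ih]
  | mul a b ha hb => rw [hf, hf', ha, hb]

/-- The linear automorphism attached to a generator. -/
noncomputable def cocLin (c : M) : (M × ℤ[T;T⁻¹]) ≃ₗ[ℤ[T;T⁻¹]] (M × ℤ[T;T⁻¹]) where
  toFun p := ((LaurentPolynomial.T 1 : ℤ[T;T⁻¹]) • p.1 + p.2 • c, p.2)
  invFun p := ((LaurentPolynomial.T (-1) : ℤ[T;T⁻¹]) • (p.1 - p.2 • c), p.2)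
  map_add' p q := by
    ext
    · simp only [Prod.fst_add, Prod.snd_add, smul_add, add_smul]; abel
    · simp
  map_smul' r p := by
    ext
    · simp only [Prod.smul_fst, Prod.smul_snd, RingHom.id_apply, smul_add, smul_smul, smul_eq_mul]
      rw [mul_comm]
    · simp
  left_inv p := by
    ext
    · simp only [add_sub_cancel_right, smul_smul, ← LaurentPolynomial.T_add]
      simp
    · rfl
  right_inv p := by
    ext
    · simp only [smul_smul, ← LaurentPolynomial.T_add]
      simp
    · rfl

/-- The crossed homomorphism with prescribed values on the generators. -/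
noncomputable def coc (c : Fin (m + 1) → M) (g : FreeGroup (Fin (m + 1))) : M :=
  (FreeGroup.lift (fun j => cocLin (c j)) g (0, 1)).1

theorem coc_aux (c : Fin (m + 1) → M) (g : FreeGroup (Fin (m + 1))) (v : M) (s : ℤ[T;T⁻¹]) :
    FreeGroup.lift (fun j => cocLin (c j)) g (v, s) =
      ((LaurentPolynomial.T (wnd g) : ℤ[T;T⁻¹]) • v + s • coc c g, s) := by
  have main : ∀ g : FreeGroup (Fin (m + 1)), ∃ d : M, ∀ (v : M) (s : ℤ[T;T⁻¹]),
      FreeGroup.lift (fun j => cocLin (c j)) g (v, s) =
      ((LaurentPolynomial.T (wnd g) : ℤ[T;T⁻¹]) • v + s • d, s) := by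
    intro g
    induction g using FreeGroup.induction_on with
    | C1 => exact ⟨0, fun v s => by simp [wnd_one]⟩
    | of j => exact ⟨c j, fun v s => by simp [wnd_of, cocLin]⟩
    | inv_of j ih =>
      refine ⟨-((LaurentPolynomial.T (-1) : ℤ[T;T⁻¹]) • c j), fun v s => ?_⟩
      rw [map_inv, FreeGroup.lift_apply_of]
      change (cocLin (c j)).symm (v, s) = _
      rw [wnd_inv, wnd_of]
      simp only [cocLin, LinearEquiv.coe_symm_mk]
      ext
      · simp only [smul_sub, smul_neg, smul_smul]
        rw [mul_comm s, sub_eq_add_neg]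
      · rfl
    | mul a b ha hb =>
      obtain ⟨d1, h1⟩ := ha
      obtain ⟨d2, h2⟩ := hb
      refine ⟨(LaurentPolynomial.T (wnd a) : ℤ[T;T⁻¹]) • d2 + d1, fun v s => ?_⟩
      rw [map_mul]
      change (FreeGroup.lift (fun j => cocLin (c j)) a)
        ((FreeGroup.lift (fun j => cocLin (c j)) b) (v, s)) = _
      rw [h2, h1, wnd_mul, LaurentPolynomial.T_add]
      ext
      · simp only [smul_add, smul_smul]
        rw [mul_comm s]
        abel
      · rfl
  obtain ⟨d, hd⟩ := main g
  have : coc c g = d := by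
    unfold coc
    rw [hd]
    simp
  rw [this]
  exact hd v s

theorem coc_isCoc (c : Fin (m + 1) → M) : IsCoc (coc c) := by
  intro g h
  unfold coc
  rw [map_mul]
  change ((FreeGroup.lift (fun j => cocLin (c j)) g)
        ((FreeGroup.lift (fun j => cocLin (c j)) h) (0, 1))).1 = _
  rw [coc_aux c h, coc_aux c g, coc_aux c g]
  simp
  abel

theorem coc_of (c : Fin (m + 1) → M) (j : Fin (m + 1)) : coc c (of j) = c j := by
  simp [coc, cocLin]

end Cocycle

/-- The module of coordinates. -/
abbrev W (m : ℕ) := Fin m → ℤ[T;T⁻¹]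

/-- Values on the generators of the coordinate crossed homomorphism. -/
noncomputable def gen (m : ℕ) : Fin (m + 1) → W m :=
  Fin.cons 0 (fun i => Pi.single i 1)

/-- The coordinate crossed homomorphism. -/
noncomputable def theta (g : FreeGroup (Fin (m + 1))) : W m := coc (gen m) g

theorem theta_isCoc : IsCoc (theta (m := m)) := coc_isCoc _

theorem theta_zero : theta (of (0 : Fin (m + 1))) = 0 := by
  simp [theta, coc_of, gen]

theorem theta_succ (i : Fin m) : theta (of i.succ) = Pi.single i 1 := by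
  simp [theta, coc_of, gen]

/-- The coordinate map on `H_1(K)`. -/
noncomputable def ThetaAdd (m : ℕ) : H1K m →+ W m :=
  MonoidHom.toAdditiveLeft (Abelianization.lift
    ({ toFun := fun k => Multiplicative.ofAdd (theta (k : FreeGroup (Fin (m + 1))))
       map_one' := by
         simp [theta_isCoc.one]
       map_mul' := by
         intro a b
         rw [Subgroup.coe_mul, theta_isCoc, wnd_K, LaurentPolynomial.T_zero, one_smul]
         rfl } : (winding m).ker →* Multiplicative (W m)))

theorem ThetaAdd_cls (k : (winding m).ker) : ThetaAdd m (cls _ k) = theta (k : FreeGroup (Fin (m + 1))) := rfl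

theorem kappa_mem (g : FreeGroup (Fin (m + 1))) : g * (of (0 : Fin (m + 1))) ^ (-wnd g) ∈ (winding m).ker := by
  change winding m _ = 1
  rw [map_mul, map_zpow]
  simp only [wnd, winding, FreeGroup.lift_apply_of]
  rw [← ofAdd_zsmul]
  simp

/-- The class of `g * x 0 ^ (- wnd g)`. -/
def kappa (g : FreeGroup (Fin (m + 1))) : H1K m := cls _ ⟨g * (of (0 : Fin (m + 1))) ^ (-wnd g), kappa_mem g⟩

theorem kappa_isCoc : IsCoc (kappa (m := m)) := by
  intro g h
  unfold kappa
  rw [T_smul_cls, ← cls_mul]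
  congr 1
  apply Subtype.ext
  simp only [conjK_coe, Subgroup.coe_mul, wnd_mul, neg_add]
  rw [zpow_add, zpow_neg, zpow_neg]
  group

theorem kappa_K (k : (winding m).ker) : kappa (k : FreeGroup (Fin (m + 1))) = cls _ k := by
  unfold kappa
  congr 1
  apply Subtype.ext
  simp [wnd_K]

theorem kappa_zero : kappa (of (0 : Fin (m + 1))) = 0 := by
  unfold kappa
  rw [← cls_one (w := winding m) (x := of (0 : Fin (m + 1)))]
  congr 1
  apply Subtype.ext
  simp [wnd_of]

/-- The coordinate map on `H_1(K)`, linear over the Laurent polynomials. -/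
noncomputable def Theta (m : ℕ) : H1K m →ₗ[ℤ[T;T⁻¹]] W m where
  toFun := ThetaAdd m
  map_add' := map_add _
  map_smul' := map_laurent_smul (ThetaAdd m) (by
    intro n x
    obtain ⟨k, rfl⟩ := cls_surj x
    have h0 : ∀ n : ℤ, theta ((of (0 : Fin (m + 1))) ^ n) = 0 := by
      intro n
      induction n using Int.induction_on with
      | zero => rw [zpow_zero, theta_isCoc.one]
      | succ n ih => rw [zpow_add, zpow_one, theta_isCoc, ih, theta_zero, smul_zero, add_zero]
      | pred n ih =>
        rw [sub_eq_add_neg, zpow_add, zpow_neg_one, theta_isCoc, ih, theta_isCoc.inv, theta_zero,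
          smul_zero, neg_zero, smul_zero, add_zero]
    have hw : wnd ((of (0 : Fin (m + 1))) ^ n) = n := by
      simp [wnd, winding, ← ofAdd_zsmul]
    rw [T_smul_cls, ThetaAdd_cls, ThetaAdd_cls, conjK_coe, theta_isCoc, theta_isCoc, h0,
      theta_isCoc.inv, h0, hw, smul_zero, neg_zero, smul_zero, add_zero, zero_add])

theorem Theta_cls (k : (winding m).ker) : Theta m (cls _ k) = theta (k : FreeGroup (Fin (m + 1))) := rfl

/-- The inverse of the coordinate map. -/
noncomputable def Xi (m : ℕ) : W m →ₗ[ℤ[T;T⁻¹]] H1K m :=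
  Fintype.linearCombination ℤ[T;T⁻¹] (fun i : Fin m => kappa (of i.succ))

theorem Xi_single (i : Fin m) : Xi m (Pi.single i 1) = kappa (of i.succ) := by
  simp [Xi, Fintype.linearCombination_apply_single]

theorem Xi_theta (g : FreeGroup (Fin (m + 1))) : Xi m (theta g) = kappa g := by
  have h1 : IsCoc (fun g : FreeGroup (Fin (m + 1)) => Xi m (theta g)) := by
    intro g h
    simp only [theta_isCoc g h, map_add, map_smul]
  refine IsCoc.ext h1 kappa_isCoc ?_ g
  intro j
  refine Fin.cases ?_ (fun i => ?_) j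
  · simp only [theta_zero, map_zero, kappa_zero]
  · simp only [theta_succ, Xi_single]

theorem Xi_Theta (x : H1K m) : Xi m (Theta m x) = x := by
  obtain ⟨k, rfl⟩ := cls_surj x
  rw [Theta_cls, Xi_theta, kappa_K]

theorem Theta_kappa_succ (i : Fin m) : Theta m (kappa (of i.succ)) = Pi.single i 1 := by
  unfold kappa
  rw [Theta_cls, theta_isCoc, theta_succ, wnd_of]
  simp only [zpow_neg, zpow_one]
  rw [theta_isCoc.inv, theta_zero]
  simp

theorem Theta_Xi (w : W m) : Theta m (Xi m w) = w := by
  have : (Theta m).comp (Xi m) = LinearMap.id := by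
    apply (Pi.basisFun ℤ[T;T⁻¹] (Fin m)).ext
    intro i
    simp only [Pi.basisFun_apply, LinearMap.comp_apply, LinearMap.id_apply]
    rw [Xi_single, Theta_kappa_succ]
  exact LinearMap.congr_fun this w

/-- `H_1(K)` is isomorphic to the free module of rank `m`. -/
noncomputable def equivW (m : ℕ) : H1K m ≃ₗ[ℤ[T;T⁻¹]] W m :=
  LinearEquiv.ofLinearMap (Theta m) (Xi m) (LinearMap.ext Theta_Xi) (LinearMap.ext Xi_Theta)

/-- The basis of `H_1(K)` given by the classes of `x (i+1) * (x 0)⁻¹`. -/
noncomputable def basisH1K (m : ℕ) : Module.Basis (Fin m) ℤ[T;T⁻¹] (H1K m) :=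
  Module.Basis.ofEquivFun (equivW m)

instance (m : ℕ) : Module.Free ℤ[T;T⁻¹] (H1K m) := Module.Free.of_basis (basisH1K m)

instance (m : ℕ) : Module.Finite ℤ[T;T⁻¹] (H1K m) := Module.Finite.of_basis (basisH1K m)

theorem basisH1K_repr (x : H1K m) (i : Fin m) : (basisH1K m).repr x i = Theta m x i := rfl

theorem basisH1K_apply (i : Fin m) : basisH1K m i = kappa (of i.succ) := by
  apply (basisH1K m).repr.injective
  rw [Module.Basis.repr_self]
  ext j
  rw [basisH1K_repr, Theta_kappa_succ]
  simp [Finsupp.single_apply, Pi.single_apply, eq_comm]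

end Pool.Agent.Work.MP_6f07cb_gt
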