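import Mathlib

/-!
# The ordered field of real Puiseux series
-/

namespace Pool.Agent.Work.MP_6f07cb_gt

/-- The order embedding `k ↦ k / N` of the integers in the rationals. -/
noncomputable def divEmb (N : ℕ) : ℤ →+ ℚ where
  toFun k := (k : ℚ) / (N : ℚ)
  map_zero' := by simp
  map_add' a b := by push_cast; ring

theorem divEmb_le {N : ℕ} (hN : 0 < N) (a b : ℤ) : divEmb N a ≤ divEmb N b ↔ a ≤ b := by
  have hN' : (0 : ℚ) < N := by exact_mod_cast hN
  simp only [divEmb, AddMonoidHom.coe_mk, ZeroHom.coe_mk]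
  rw [div_le_div_iff_of_pos_right hN']
  exact_mod_cast Iff.rfl

theorem divEmb_inj {N : ℕ} (hN : 0 < N) : Function.Injective (divEmb N) := by
  intro a b h
  exact le_antisymm ((divEmb_le hN a b).mp h.le) ((divEmb_le hN b a).mp h.ge)

/-- The field embedding of the Laurent series in `t ^ (1 / N)`. -/
noncomputable def laurentEmb {N : ℕ} (hN : 0 < N) : HahnSeries ℤ ℝ →+* HahnSeries ℚ ℝ :=
  HahnSeries.embDomainRingHom (divEmb N) (divEmb_inj hN) (divEmb_le hN)

theorem mem_range_laurentEmb {N : ℕ} (hN : 0 < N) (f : HahnSeries ℚ ℝ) :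
    (∃ g, laurentEmb hN g = f) ↔ ∀ q ∈ f.support, ∃ k : ℤ, q = (k : ℚ) / (N : ℚ) := by
  constructor
  · rintro ⟨g, rfl⟩ q hq
    obtain ⟨k, -, hk⟩ := HahnSeries.support_embDomain_subset hq
    exact ⟨k, hk.symm⟩
  · intro h
    have hpwo : (Function.support fun k : ℤ => f.coeff (divEmb N k)).IsPWO := by
      rw [Set.IsPWO, Set.partiallyWellOrderedOn_iff_exists_lt]
      intro s hs
      have hf := f.isPWO_support
      rw [Set.IsPWO, Set.partiallyWellOrderedOn_iff_exists_lt] at hf
      obtain ⟨a, b, hab, h1⟩ := hf (fun n => divEmb N (s n)) hs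
      exact ⟨a, b, hab, (divEmb_le hN _ _).mp h1⟩
    refine ⟨⟨fun k : ℤ => f.coeff (divEmb N k), hpwo⟩, ?_⟩
    ext q
    by_cases hq : q ∈ f.support
    · obtain ⟨k, rfl⟩ := h q hq
      exact HahnSeries.embDomain_coeff
    · have h0 : f.coeff q = 0 := by simpa using hq
      rw [h0]
      by_cases hr : ∃ k : ℤ, q = divEmb N k
      · obtain ⟨k, rfl⟩ := hr
        have : (laurentEmb hN ⟨fun k : ℤ => f.coeff (divEmb N k), hpwo⟩).coeff (divEmb N k) =
            f.coeff (divEmb N k) := HahnSeries.embDomain_coeff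
        rw [this, h0]
      · apply HahnSeries.embDomain_of_notMem_range
        rintro ⟨k, hk⟩
        exact hr ⟨k, hk.symm⟩

/-- The condition defining real Puiseux series among Hahn series with rational exponents: the
exponents that occur lie in `(1 / N) ℤ` for some `N ≥ 1` (being the support of a Hahn series, they
are then bounded below). -/
def IsPuiseux (f : HahnSeries ℚ ℝ) : Prop :=
  ∃ N : ℕ, 0 < N ∧ ∀ q ∈ f.support, ∃ k : ℤ, q = (k : ℚ) / (N : ℚ)

theorem isPuiseux_common (f g : HahnSeries ℚ ℝ) (hf : IsPuiseux f) (hg : IsPuiseux g) :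
    ∃ (N : ℕ) (hN : 0 < N) (f' g' : HahnSeries ℤ ℝ), laurentEmb hN f' = f ∧ laurentEmb hN g' = g := by
  obtain ⟨N, hN, h1⟩ := hf
  obtain ⟨M, hM, h2⟩ := hg
  have hNM : 0 < N * M := Nat.mul_pos hN hM
  have hN' : (N : ℚ) ≠ 0 := by exact_mod_cast hN.ne'
  have hM' : (M : ℚ) ≠ 0 := by exact_mod_cast hM.ne'
  obtain ⟨f', hf'⟩ := (mem_range_laurentEmb hNM f).mpr (by
    intro q hq
    obtain ⟨k, rfl⟩ := h1 q hq
    refine ⟨k * M, ?_⟩
    push_cast
    field_simp)
  obtain ⟨g', hg'⟩ := (mem_range_laurentEmb hNM g).mpr (by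
    intro q hq
    obtain ⟨k, rfl⟩ := h2 q hq
    refine ⟨k * N, ?_⟩
    push_cast
    field_simp)
  exact ⟨N * M, hNM, f', g', hf', hg'⟩

theorem isPuiseux_of_range {N : ℕ} (hN : 0 < N) (f : HahnSeries ℤ ℝ) : IsPuiseux (laurentEmb hN f) :=
  ⟨N, hN, (mem_range_laurentEmb hN _).mp ⟨f, rfl⟩⟩

theorem isPuiseux_mul {a b : HahnSeries ℚ ℝ} (ha : IsPuiseux a) (hb : IsPuiseux b) :
    IsPuiseux (a * b) := by
  obtain ⟨N, hN, f', g', rfl, rfl⟩ := isPuiseux_common a b ha hb
  rw [← map_mul]
  exact isPuiseux_of_range hN _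

theorem isPuiseux_add {a b : HahnSeries ℚ ℝ} (ha : IsPuiseux a) (hb : IsPuiseux b) :
    IsPuiseux (a + b) := by
  obtain ⟨N, hN, f', g', rfl, rfl⟩ := isPuiseux_common a b ha hb
  rw [← map_add]
  exact isPuiseux_of_range hN _

theorem isPuiseux_neg {a : HahnSeries ℚ ℝ} (ha : IsPuiseux a) : IsPuiseux (-a) := by
  obtain ⟨N, hN, f', g', rfl, -⟩ := isPuiseux_common a a ha ha
  rw [← map_neg]
  exact isPuiseux_of_range hN _

theorem isPuiseux_inv {a : HahnSeries ℚ ℝ} (ha : IsPuiseux a) : IsPuiseux a⁻¹ := by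
  obtain ⟨N, hN, f', g', rfl, -⟩ := isPuiseux_common a a ha ha
  rw [← map_inv₀]
  exact isPuiseux_of_range hN _

theorem isPuiseux_one : IsPuiseux 1 := by
  rw [← map_one (laurentEmb Nat.one_pos)]
  exact isPuiseux_of_range Nat.one_pos _

theorem isPuiseux_zero : IsPuiseux 0 := by
  rw [← map_zero (laurentEmb Nat.one_pos)]
  exact isPuiseux_of_range Nat.one_pos _

/-- The field of Puiseux series with real coefficients, as a subfield of the field of Hahn series
with rational exponents and real coefficients. -/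
def Puiseux : Subfield (HahnSeries ℚ ℝ) where
  carrier := {f | IsPuiseux f}
  mul_mem' := isPuiseux_mul
  one_mem' := isPuiseux_one
  add_mem' := isPuiseux_add
  zero_mem' := isPuiseux_zero
  neg_mem' := isPuiseux_neg
  inv_mem' _ := isPuiseux_inv

/-- Positivity in the ordered field of Puiseux series: the coefficient of the lowest exponent is
positive. -/
def Puiseux.IsPos (f : Puiseux) : Prop := 0 < (f : HahnSeries ℚ ℝ).leadingCoeff

/-- Negativity in the ordered field of Puiseux series: the coefficient of the lowest exponent is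
negative. -/
def Puiseux.IsNeg (f : Puiseux) : Prop := (f : HahnSeries ℚ ℝ).leadingCoeff < 0

theorem single_mem_Puiseux (k : ℤ) : HahnSeries.single (k : ℚ) (1 : ℝ) ∈ Puiseux := by
  refine ⟨1, Nat.one_pos, ?_⟩
  intro q hq
  have := HahnSeries.support_single_subset hq
  exact ⟨k, by simpa using this⟩

/-- The series `t ^ k`. -/
noncomputable def tPow (k : ℤ) : Puiseux :=
  ⟨HahnSeries.single (k : ℚ) 1, single_mem_Puiseux k⟩

theorem tPow_add (a b : ℤ) : tPow (a + b) = tPow a * tPow b := by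
  apply Subtype.ext
  simp [tPow, HahnSeries.single_mul_single]

theorem tPow_zero : tPow 0 = 1 := by
  apply Subtype.ext
  simp [tPow]

theorem tPow_mul_neg (a : ℤ) : tPow a * tPow (-a) = 1 := by
  rw [← tPow_add, add_neg_cancel, tPow_zero]

theorem tPow_neg_mul (a : ℤ) : tPow (-a) * tPow a = 1 := by
  rw [← tPow_add, neg_add_cancel, tPow_zero]

/-- The unit `t` of the field of Puiseux series. -/
noncomputable def tUnit : Puiseuxˣ where
  val := tPow 1
  inv := tPow (-1)
  val_inv := tPow_mul_neg 1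
  inv_val := tPow_neg_mul 1

end Pool.Agent.Work.MP_6f07cb_gt
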