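import Mathlib
import Pool.Agent.Work.MP_6f07cb_gt.Basis
import Pool.Agent.Work.MP_6f07cb_gt.Puiseux

/-!
# Eigenvalues of the reduced Burau representation in the field of Puiseux series
-/

namespace Pool.Agent.Work.MP_6f07cb_gt

open FreeGroup (of)
open scoped LaurentPolynomial

/-- The inclusion of the integral Laurent polynomials in the field of real Puiseux series, which
sends the variable to `t`. -/
noncomputable def toPuiseux : ℤ[T;T⁻¹] →+* Puiseux :=
  LaurentPolynomial.eval₂ (Int.castRingHom Puiseux) tUnit

/-- `lam` is an eigenvalue in the field of Puiseux series of the reduced Burau representation of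
`β`: a root there of its characteristic polynomial. -/
def IsBurauEigenvalue {m : ℕ} (β : PresentedGroup (braidRels m)) (lam : Puiseux) : Prop :=
  ((burau β).charpoly.map toPuiseux).IsRoot lam

end Pool.Agent.Work.MP_6f07cb_gt
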