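import Mathlib
import Pool.Agent.Work.MP_6f07cb_gt.Defs

/-!
# A bi-order of a free group preserved by automorphisms that act trivially on the abelianization

The order is the classical one read off from Magnus expansions: we send the generator `x i` to
`1 + X i * T` in the ring of power series in the central variable `T` over the free associative
ring on the letters `X i`, and call an element `g` positive when the first nonzero coefficient of
its expansion minus one is positive for a fixed additive total order of the free ring.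
-/

namespace Pool.Agent.Work.MP_6f07cb_gt

open PowerSeries

section General

variable {A : Type*} [Ring A] [LinearOrder A] [IsOrderedAddMonoid A]

/-- `u` is positive when its first nonzero coefficient is positive. -/
def Pos (u : A⟦X⟧) : Prop := ∃ d, (∀ k < d, coeff k u = 0) ∧ 0 < coeff d u

omit [IsOrderedAddMonoid A] in
theorem not_pos_zero : ¬ Pos (0 : A⟦X⟧) := by
  rintro ⟨d, -, h⟩
  simp at h

theorem pos_trichotomy (u : A⟦X⟧) : Pos u ∨ u = 0 ∨ Pos (-u) := by
  by_cases h : u = 0
  · exact Or.inr (Or.inl h)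
  · have hex : ∃ d, coeff d u ≠ 0 := by
      by_contra hcon
      push Not at hcon
      exact h (PowerSeries.ext (by simpa using hcon))
    classical
    have hmin : ∀ k < Nat.find hex, coeff k u = 0 := fun k hk => by
      have := Nat.find_min hex hk
      simpa using this
    rcases lt_trichotomy (coeff (Nat.find hex) u) 0 with hlt | heq | hgt
    · right; right
      refine ⟨Nat.find hex, fun k hk => by simp [hmin k hk], ?_⟩
      simpa using hlt
    · exact absurd heq (Nat.find_spec hex)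
    · left
      exact ⟨Nat.find hex, hmin, hgt⟩

theorem not_pos_and_pos_neg (u : A⟦X⟧) (h : Pos u) (h' : Pos (-u)) : False := by
  obtain ⟨d, hd1, hd2⟩ := h
  obtain ⟨e, he1, he2⟩ := h'
  simp only [map_neg, neg_eq_zero, Left.neg_pos_iff] at he1 he2
  rcases lt_trichotomy d e with hlt | heq | hgt
  · rw [he1 d hlt] at hd2; exact lt_irrefl _ hd2
  · subst heq; exact lt_asymm hd2 he2
  · rw [hd1 e hgt] at he2; exact lt_irrefl _ he2

omit [LinearOrder A] [IsOrderedAddMonoid A] in
theorem coeff_mul_low (w u : A⟦X⟧) (d : ℕ) (h : ∀ k < d, coeff k u = 0) :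
    (∀ k < d, coeff k (w * u) = 0) ∧ coeff d (w * u) = coeff 0 w * coeff d u := by
  constructor
  · intro k hk
    rw [coeff_mul]
    apply Finset.sum_eq_zero
    intro p hp
    rw [Finset.HasAntidiagonal.mem_antidiagonal] at hp
    rw [h p.2 (by omega), mul_zero]
  · rw [coeff_mul]
    rw [Finset.sum_eq_single (0, d)]
    · intro p hp hne
      rw [Finset.HasAntidiagonal.mem_antidiagonal] at hp
      have : p.2 < d := by
        rcases Nat.lt_or_ge p.2 d with h1 | h1
        · exact h1
        · exfalso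
          apply hne
          ext
          · simp; omega
          · simp; omega
      rw [h p.2 this, mul_zero]
    · intro hnot
      exact absurd (by simp) hnot

omit [LinearOrder A] [IsOrderedAddMonoid A] in
theorem coeff_mul_low' (w u : A⟦X⟧) (d : ℕ) (h : ∀ k < d, coeff k u = 0) :
    (∀ k < d, coeff k (u * w) = 0) ∧ coeff d (u * w) = coeff d u * coeff 0 w := by
  constructor
  · intro k hk
    rw [coeff_mul]
    apply Finset.sum_eq_zero
    intro p hp
    rw [Finset.HasAntidiagonal.mem_antidiagonal] at hp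
    rw [h p.1 (by omega), zero_mul]
  · rw [coeff_mul]
    rw [Finset.sum_eq_single (d, 0)]
    · intro p hp hne
      rw [Finset.HasAntidiagonal.mem_antidiagonal] at hp
      have : p.1 < d := by
        rcases Nat.lt_or_ge p.1 d with h1 | h1
        · exact h1
        · exfalso
          apply hne
          ext
          · simp; omega
          · simp; omega
      rw [h p.1 this, zero_mul]
    · intro hnot
      exact absurd (by simp) hnot

omit [IsOrderedAddMonoid A] in
theorem pos_conj (w v u : A⟦X⟧) (hw : coeff 0 w = 1) (hv : coeff 0 v = 1) (h : Pos u) :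
    Pos (w * u * v) := by
  obtain ⟨d, h1, h2⟩ := h
  obtain ⟨h3, h4⟩ := coeff_mul_low w u d h1
  obtain ⟨h5, h6⟩ := coeff_mul_low' v (w * u) d h3
  refine ⟨d, h5, ?_⟩
  rw [h6, h4, hw, hv, one_mul, mul_one]
  exact h2

theorem pos_mul (u v : A⟦X⟧) (hv0 : coeff 0 v = 0) (hu : Pos u) (hv : Pos v) :
    Pos (u + v + u * v) := by
  obtain ⟨d, hd1, hd2⟩ := hu
  obtain ⟨e, he1, he2⟩ := hv
  have e0 : e ≠ 0 := by
    rintro rfl
    rw [hv0] at he2
    exact lt_irrefl _ he2
  have huv : u + v + u * v = u * (1 + v) + v := by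
    rw [mul_add, mul_one]; abel
  rw [huv]
  have h1v : coeff 0 (1 + v) = 1 := by rw [map_add, hv0, add_zero]; simp
  obtain ⟨h3, h4⟩ := coeff_mul_low' (1 + v) u d hd1
  rw [h1v, mul_one] at h4
  rcases lt_trichotomy d e with hlt | heq | hgt
  · refine ⟨d, fun k hk => ?_, ?_⟩
    · rw [map_add, h3 k hk, he1 k (hk.trans hlt), add_zero]
    · rw [map_add, h4, he1 d hlt, add_zero]
      exact hd2
  · subst heq
    refine ⟨d, fun k hk => ?_, ?_⟩
    · rw [map_add, h3 k hk, he1 k hk, add_zero]
    · rw [map_add, h4]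
      exact add_pos hd2 he2
  · refine ⟨e, fun k hk => ?_, ?_⟩
    · rw [map_add, h3 k (hk.trans hgt), he1 k hk, add_zero]
    · rw [map_add, h3 e hgt, zero_add]
      exact he2

/-- A group embedded in the power series with constant coefficient one is bi-ordered by the sign
of the first nonzero coefficient. -/
theorem isBiOrder_of_injective {G : Type*} [Group G] (μ : G →* (A⟦X⟧)ˣ)
    (hinj : Function.Injective μ) (h0 : ∀ g, coeff 0 (μ g : A⟦X⟧) = 1) :
    IsBiOrder (fun a b : G => Pos ((μ (a⁻¹ * b) : A⟦X⟧) - 1)) := by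
  have hmul : ∀ g h : G, Pos ((μ g : A⟦X⟧) - 1) → Pos ((μ h : A⟦X⟧) - 1) →
      Pos ((μ (g * h) : A⟦X⟧) - 1) := by
    intro g h hg hh
    have hpq : (μ (g * h) : A⟦X⟧) - 1 = ((μ g : A⟦X⟧) - 1) + ((μ h : A⟦X⟧) - 1) +
        ((μ g : A⟦X⟧) - 1) * ((μ h : A⟦X⟧) - 1) := by
      rw [map_mul, Units.val_mul]; noncomm_ring
    rw [hpq]
    refine pos_mul _ _ ?_ hg hh
    rw [map_sub, h0]; simp
  have hconj : ∀ g h : G, Pos ((μ g : A⟦X⟧) - 1) → Pos ((μ (h * g * h⁻¹) : A⟦X⟧) - 1) := by
    intro g h hg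
    have : (μ (h * g * h⁻¹) : A⟦X⟧) - 1 = (μ h : A⟦X⟧) * ((μ g : A⟦X⟧) - 1) * (μ h⁻¹ : A⟦X⟧) := by
      have h1 : (μ h : A⟦X⟧) * (μ h⁻¹ : A⟦X⟧) = 1 := by
        rw [← Units.val_mul, ← map_mul]; simp
      rw [map_mul, map_mul, Units.val_mul, Units.val_mul, mul_sub, sub_mul, mul_one, h1]
    rw [this]
    exact pos_conj _ _ _ (h0 _) (h0 _) hg
  have hinv : ∀ g : G, Pos (-((μ g : A⟦X⟧) - 1)) → Pos ((μ g⁻¹ : A⟦X⟧) - 1) := by
    intro g hg
    have : (μ g⁻¹ : A⟦X⟧) - 1 = 1 * (-((μ g : A⟦X⟧) - 1)) * (μ g⁻¹ : A⟦X⟧) := by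
      have h1 : (μ g : A⟦X⟧) * (μ g⁻¹ : A⟦X⟧) = 1 := by
        rw [← Units.val_mul, ← map_mul]; simp
      rw [one_mul, neg_mul, sub_mul, h1, one_mul, neg_sub]
    rw [this]
    exact pos_conj _ _ _ (by simp) (h0 _) hg
  refine ⟨?_, ?_, ?_, ?_, ?_⟩
  · intro a
    simp only [inv_mul_cancel, map_one, Units.val_one, sub_self]
    exact not_pos_zero
  · intro a b c hab hbc
    have : a⁻¹ * c = (a⁻¹ * b) * (b⁻¹ * c) := by group
    rw [this]
    exact hmul _ _ hab hbc
  · intro a b
    rcases pos_trichotomy ((μ (a⁻¹ * b) : A⟦X⟧) - 1) with h | h | h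
    · exact Or.inl h
    · right; left
      have h1 : μ (a⁻¹ * b) = μ 1 := by
        rw [map_one]
        exact Units.ext (by simpa [sub_eq_zero] using h)
      have h2 := hinj h1
      rw [inv_mul_eq_one] at h2
      exact h2
    · right; right
      have := hinv _ h
      rwa [mul_inv_rev, inv_inv] at this
  · intro a b c hab
    have : (c * a)⁻¹ * (c * b) = a⁻¹ * b := by group
    simpa [this] using hab
  · intro a b c hab
    have : (a * c)⁻¹ * (b * c) = c⁻¹ * (a⁻¹ * b) * (c⁻¹)⁻¹ := by group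
    rw [this]
    exact hconj _ _ hab

end General

section Magnus

variable (ι : Type*)

/-- The free associative ring on the letters `ι`. -/
abbrev FA := FreeAlgebra ℤ ι

variable {ι}

/-- The unit `1 + a T` for any `a`. -/
noncomputable def onePlus {A : Type*} [Ring A] (a : A) : (A⟦X⟧)ˣ where
  val := 1 + C a * X
  inv := mk fun k => (-a) ^ k
  val_inv := by
    ext n
    rw [add_mul, one_mul, mul_assoc, map_add]
    rcases n with _ | n
    · simp
    · rw [← (commute_X _).eq, coeff_C_mul, coeff_succ_mul_X]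
      simp [pow_succ']
  inv_val := by
    ext n
    rw [mul_add, mul_one, ← mul_assoc, map_add]
    rcases n with _ | n
    · simp
    · rw [coeff_succ_mul_X, coeff_mul_C]
      simp [pow_succ]

/-- The Magnus expansion. -/
noncomputable def magnus : FreeGroup ι →* ((FA ι)⟦X⟧)ˣ :=
  FreeGroup.lift fun i => onePlus (FreeAlgebra.ι ℤ i)

theorem magnus_coeff_zero (g : FreeGroup ι) : coeff 0 (magnus g : (FA ι)⟦X⟧) = 1 := by
  induction g using FreeGroup.induction_on with
  | C1 => simp
  | of i => simp [magnus, onePlus]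
  | inv_of i h => simp [magnus, onePlus]
  | mul g h hg hh =>
    rw [coeff_zero_eq_constantCoeff] at *
    rw [map_mul, Units.val_mul, map_mul, hg, hh, one_mul]

section Inv

variable (y : ι → (FA ι)⟦X⟧)

/-- The substitution `X i ↦ y i` on the free ring. -/
noncomputable def psi : FA ι →ₐ[ℤ] (FA ι)⟦X⟧ := FreeAlgebra.lift ℤ y

/-- The `T`-adic extension of `psi`. -/
noncomputable def Phi (a : (FA ι)⟦X⟧) : (FA ι)⟦X⟧ :=
  mk fun d => ∑ p ∈ Finset.HasAntidiagonal.antidiagonal d, coeff p.2 (psi y (coeff p.1 a))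

theorem Phi_add (a b : (FA ι)⟦X⟧) : Phi y (a + b) = Phi y a + Phi y b := by
  ext d
  simp only [Phi, coeff_mk, map_add, Finset.sum_add_distrib]

theorem Phi_mul_X (a : (FA ι)⟦X⟧) : Phi y (a * X) = Phi y a * X := by
  ext d
  rcases d with _ | d
  · simp [Phi]
  · rw [coeff_succ_mul_X]
    simp only [Phi, coeff_mk]
    rw [Finset.Nat.antidiagonal_succ, Finset.sum_cons]
    simp [coeff_succ_mul_X]

theorem Phi_C_mul (c : FA ι) (b : (FA ι)⟦X⟧) : Phi y (C c * b) = psi y c * Phi y b := by
  ext d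
  rw [coeff_mul]
  simp only [Phi, coeff_mk, coeff_C_mul, map_mul]
  simp only [coeff_mul, Finset.mul_sum]
  rw [Finset.sum_sigma', Finset.sum_sigma']
  refine Finset.sum_nbij' (fun x => ⟨(x.2.1, x.1.1 + x.2.2), (x.1.1, x.2.2)⟩)
    (fun x => ⟨(x.2.1, x.1.1 + x.2.2), (x.1.1, x.2.2)⟩) ?_ ?_ ?_ ?_ ?_
  · rintro ⟨⟨a1, a2⟩, ⟨b1, b2⟩⟩ h
    simp only [Finset.mem_sigma, Finset.HasAntidiagonal.mem_antidiagonal] at h ⊢
    refine ⟨?_, trivial⟩
    omega
  · rintro ⟨⟨a1, a2⟩, ⟨b1, b2⟩⟩ h
    simp only [Finset.mem_sigma, Finset.HasAntidiagonal.mem_antidiagonal] at h ⊢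
    refine ⟨?_, trivial⟩
    omega
  · rintro ⟨⟨a1, a2⟩, ⟨b1, b2⟩⟩ h
    simp only [Finset.mem_sigma, Finset.HasAntidiagonal.mem_antidiagonal] at h ⊢
    obtain ⟨-, h2⟩ := h
    subst h2
    rfl
  · rintro ⟨⟨a1, a2⟩, ⟨b1, b2⟩⟩ h
    simp only [Finset.mem_sigma, Finset.HasAntidiagonal.mem_antidiagonal] at h ⊢
    obtain ⟨-, h2⟩ := h
    subst h2
    rfl
  · rintro ⟨⟨a1, a2⟩, ⟨b1, b2⟩⟩ h
    rfl

theorem coeff_zero_psi (hy : ∀ i, coeff 0 (y i) = FreeAlgebra.ι ℤ i) (a : FA ι) :
    coeff 0 (psi y a) = a := by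
  induction a using FreeAlgebra.induction with
  | grade0 r => simp
  | grade1 i => simpa [psi] using hy i
  | mul a b ha hb =>
    rw [coeff_zero_eq_constantCoeff] at *
    rw [map_mul, map_mul, ha, hb]
  | add a b ha hb => rw [map_add, map_add, ha, hb]

theorem coeff_Phi_low (hy : ∀ i, coeff 0 (y i) = FreeAlgebra.ι ℤ i) (a : (FA ι)⟦X⟧) (d : ℕ)
    (h : ∀ k < d, coeff k a = 0) :
    (∀ k < d, coeff k (Phi y a) = 0) ∧ coeff d (Phi y a) = coeff d a := by
  constructor
  · intro k hk
    simp only [Phi, coeff_mk]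
    apply Finset.sum_eq_zero
    intro p hp
    rw [Finset.HasAntidiagonal.mem_antidiagonal] at hp
    rw [h p.1 (by omega)]
    simp
  · simp only [Phi, coeff_mk]
    rw [Finset.sum_eq_single (d, 0)]
    · exact coeff_zero_psi y hy _
    · intro p hp hne
      rw [Finset.HasAntidiagonal.mem_antidiagonal] at hp
      have : p.1 < d := by
        rcases Nat.lt_or_ge p.1 d with h1 | h1
        · exact h1
        · exfalso
          apply hne
          ext
          · simp; omega
          · simp; omega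
      rw [h p.1 this]
      simp
    · intro hnot
      exact absurd (by simp) hnot

theorem Phi_one : Phi y 1 = 1 := by
  ext d
  simp only [Phi, coeff_mk]
  rw [Finset.sum_eq_single (0, d)]
  · simp
  · intro p hp hne
    rw [Finset.HasAntidiagonal.mem_antidiagonal] at hp
    have : p.1 ≠ 0 := by
      intro h0
      apply hne
      ext
      · simpa using h0
      · simp; omega
    rw [coeff_one, if_neg this]
    simp
  · intro hnot
    exact absurd (by simp) hnot

end Inv

/-- If `φ` sends each generator to an element with Magnus expansion `1 + X i T + ...` then the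
expansion of `φ g` is the substitution of that of `g`. -/
theorem Phi_magnus (φ : FreeGroup ι →* FreeGroup ι) (y : ι → (FA ι)⟦X⟧)
    (hy : ∀ i, (magnus (φ (FreeGroup.of i)) : (FA ι)⟦X⟧) = 1 + y i * X) (g : FreeGroup ι) :
    ∀ b, Phi y ((magnus g : (FA ι)⟦X⟧) * b) = (magnus (φ g) : (FA ι)⟦X⟧) * Phi y b := by
  have hinv : ∀ g, (∀ b, Phi y ((magnus g : (FA ι)⟦X⟧) * b) =
      (magnus (φ g) : (FA ι)⟦X⟧) * Phi y b) → (∀ b, Phi y ((magnus g⁻¹ : (FA ι)⟦X⟧) * b) =
      (magnus (φ g⁻¹) : (FA ι)⟦X⟧) * Phi y b) := by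
    intro g hg b
    have h1 := hg ((magnus g⁻¹ : (FA ι)⟦X⟧) * b)
    rw [← mul_assoc, ← Units.val_mul, ← map_mul, mul_inv_cancel, map_one, Units.val_one,
      one_mul] at h1
    rw [h1, ← mul_assoc, ← Units.val_mul, ← map_mul, ← map_mul, inv_mul_cancel, map_one, map_one,
      Units.val_one, one_mul]
  have hof : ∀ i, (∀ b, Phi y ((magnus (FreeGroup.of i) : (FA ι)⟦X⟧) * b) =
      (magnus (φ (FreeGroup.of i)) : (FA ι)⟦X⟧) * Phi y b) := by
    intro i b
    rw [hy i]
    have h1 : (magnus (FreeGroup.of i) : (FA ι)⟦X⟧) = 1 + C (FreeAlgebra.ι ℤ i) * X := by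
      simp [magnus, onePlus]
    rw [h1, add_mul, one_mul, Phi_add, mul_assoc, ← (commute_X b).eq, Phi_C_mul, Phi_mul_X,
      add_mul, one_mul, mul_assoc, ← (commute_X (Phi y b)).eq]
    simp [psi]
  induction g using FreeGroup.induction_on with
  | C1 => intro b; simp
  | of i => exact hof i
  | inv_of i h => exact hinv _ h
  | mul g h hg hh =>
    intro b
    rw [map_mul, Units.val_mul, mul_assoc, hg, hh, map_mul, map_mul, Units.val_mul, mul_assoc]

/-- The additive group of the free ring has a compatible total order. -/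
theorem exists_linearOrder_FA :
    ∃ _lo : LinearOrder (FA ι), IsOrderedAddMonoid (FA ι) := by
  let _ : LinearOrder (FreeMonoid ι) := IsWellOrder.linearOrder (WellOrderingRel (α := FreeMonoid ι))
  let key : FA ι → Lex (FreeMonoid ι →₀ ℤ) := fun x =>
    toLex ((FreeAlgebra.basisFreeMonoid ℤ ι).repr x)
  have hkey : Function.Injective key := by
    intro a b hab
    exact (FreeAlgebra.basisFreeMonoid ℤ ι).repr.injective (toLex.injective hab)
  have hadd : ∀ a b, key (a + b) = key a + key b := by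
    intro a b
    simp [key]
  refine ⟨LinearOrder.lift' key hkey, ?_⟩
  let _ : LinearOrder (FA ι) := LinearOrder.lift' key hkey
  refine ⟨fun a b hab c => ?_, fun a b hab c => ?_⟩
  · change key (a + c) ≤ key (b + c)
    rw [hadd, hadd]
    have : key a ≤ key b := hab
    gcongr
  · change key (c + a) ≤ key (c + b)
    rw [hadd, hadd]
    have : key a ≤ key b := hab
    gcongr

end Magnus

end Pool.Agent.Work.MP_6f07cb_gt
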