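import Mathlib

namespace Pool.Agent.Work.MP_6f07cb_gt

section PingPong

open Polynomial
open scoped Function Pointwise

/-- Integer two by two matrices. -/
abbrev M2 := Matrix (Fin 2) (Fin 2) ℤ

/-- A square-zero matrix. -/
def nil (a : ℤ) : M2 := !![-a, 1; -a ^ 2, a]

theorem nil_sq (a : ℤ) : nil a * nil a = 0 := by
  ext i j
  fin_cases i <;> fin_cases j <;> simp [nil, Matrix.mul_apply, Fin.sum_univ_two] <;> ring

theorem nil_common (a b : ℤ) (hab : a ≠ b) (L : M2) (ha : nil a * L = 0) (hb : nil b * L = 0) :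
    L = 0 := by
  have hsub : a - b ≠ 0 := sub_ne_zero.mpr hab
  have key : ∀ j, L 0 j = 0 ∧ L 1 j = 0 := by
    intro j
    have h1 : -a * L 0 j + 1 * L 1 j = 0 := by
      have := congrFun (congrFun ha 0) j
      simpa [nil, Matrix.mul_apply, Fin.sum_univ_two] using this
    have h2 : -b * L 0 j + 1 * L 1 j = 0 := by
      have := congrFun (congrFun hb 0) j
      simpa [nil, Matrix.mul_apply, Fin.sum_univ_two] using this
    have h3 : (a - b) * L 0 j = 0 := by linarith
    have h4 : L 0 j = 0 := by
      rcases mul_eq_zero.mp h3 with h | h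
      · exact absurd h hsub
      · exact h
    refine ⟨h4, ?_⟩
    rw [h4] at h1
    linarith
  ext i j
  fin_cases i
  · exact (key j).1
  · exact (key j).2

theorem CX_sq (N : M2) (hN : N * N = 0) : (C N * X) * (C N * X) = (0 : Polynomial M2) := by
  rw [mul_assoc, ← mul_assoc X, X_mul_C, mul_assoc, ← mul_assoc, ← C_mul, hN]
  simp

/-- The unit `1 + N T` of the polynomial ring over matrices, `N` square-zero. -/
noncomputable def pUnit (a : ℤ) : (Polynomial M2)ˣ where
  val := 1 + C (nil a) * X
  inv := 1 - C (nil a) * X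
  val_inv := by
    rw [mul_sub, mul_one, add_mul, one_mul, CX_sq _ (nil_sq a)]
    abel
  inv_val := by
    rw [mul_add, mul_one, sub_mul, one_mul, CX_sq _ (nil_sq a)]
    abel

theorem pUnit_pow (a : ℤ) (k : ℕ) :
    ((pUnit a ^ k : (Polynomial M2)ˣ) : Polynomial M2) = 1 + C ((k : ℤ) • nil a) * X := by
  induction k with
  | zero => simp
  | succ k ih =>
    rw [pow_succ, Units.val_mul, ih]
    change (1 + C ((k : ℤ) • nil a) * X) * (1 + C (nil a) * X) = _
    have h : (C ((k : ℤ) • nil a) * X) * (C (nil a) * X) = (0 : Polynomial M2) := by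
      rw [mul_assoc, ← mul_assoc X, X_mul_C, mul_assoc, ← mul_assoc, ← C_mul, smul_mul_assoc,
        nil_sq]
      simp
    rw [mul_add, mul_one, add_mul, one_mul, h, add_zero]
    push_cast
    rw [add_smul, one_smul, C_add, add_mul]
    abel

theorem one_sub_aux {R : Type*} [Ring R] (N : R) :
    (1 : Polynomial R) - C N * X = 1 + C (-N) * X := by
  rw [C_neg, neg_mul, sub_eq_add_neg]

theorem pUnit_zpow (a k : ℤ) :
    ((pUnit a ^ k : (Polynomial M2)ˣ) : Polynomial M2) = 1 + C (k • nil a) * X := by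
  rcases k with k | k
  · simpa using pUnit_pow a k
  · rw [zpow_negSucc]
    have h1 := pUnit_pow a (k + 1)
    have h : (C (((k + 1 : ℕ) : ℤ) • nil a) * X) * (C (((k + 1 : ℕ) : ℤ) • nil a) * X) =
        (0 : Polynomial M2) := by
      apply CX_sq
      rw [smul_mul_smul_comm, nil_sq, smul_zero]
    have h2 : (1 + C (((k + 1 : ℕ) : ℤ) • nil a) * X) *
        (1 - C (((k + 1 : ℕ) : ℤ) • nil a) * X) = (1 : Polynomial M2) := by
      rw [mul_sub, mul_one, add_mul, one_mul, h]
      abel
    have h3 : (((pUnit a ^ (k + 1))⁻¹ : (Polynomial M2)ˣ) : Polynomial M2) =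
        1 - C (((k + 1 : ℕ) : ℤ) • nil a) * X := by
      rw [← h1] at h2
      exact Units.inv_eq_of_mul_eq_one_right h2
    rw [h3, Int.negSucc_eq, neg_smul, one_sub_aux]
    push_cast
    rfl

/-- The ping-pong sets. -/
def ppSet (a : ℤ) : Set (Polynomial M2) := {p | p ≠ 0 ∧ nil a * p.leadingCoeff = 0}

theorem ppSet_nonempty (a : ℤ) : (ppSet a).Nonempty := by
  refine ⟨C (nil a), ?_, ?_⟩
  · intro h
    have := congrArg (fun p => (p.coeff 0) 0 1) h
    simp [nil] at this
  · rw [leadingCoeff_C, nil_sq]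

theorem ppSet_disjoint (a b : ℤ) (hab : a ≠ b) : Disjoint (ppSet a) (ppSet b) := by
  rw [Set.disjoint_left]
  rintro p ⟨h1, h2⟩ ⟨-, h3⟩
  have := nil_common a b hab _ h2 h3
  rw [leadingCoeff_eq_zero] at this
  exact h1 this

theorem ppSet_step (a b k : ℤ) (hab : a ≠ b) (hk : k ≠ 0) (p : Polynomial M2)
    (hp : p ∈ ppSet b) : ((pUnit a ^ k : (Polynomial M2)ˣ) : Polynomial M2) * p ∈ ppSet a := by
  obtain ⟨h1, h2⟩ := hp
  have h3 : (k • nil a) * p.leadingCoeff ≠ 0 := by
    intro h
    rw [smul_mul_assoc, smul_eq_zero] at h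
    rcases h with h | h
    · exact hk h
    · have := nil_common a b hab _ h h2
      rw [leadingCoeff_eq_zero] at this
      exact h1 this
  have hdeg : (C (k • nil a) * X * p).natDegree = p.natDegree + 1 ∧
      (C (k • nil a) * X * p).leadingCoeff = (k • nil a) * p.leadingCoeff := by
    have hX : C (k • nil a) * X * p = C (k • nil a) * p * X := by
      rw [mul_assoc, X_mul, mul_assoc]
    have hd1 : (C (k • nil a) * p).natDegree = p.natDegree := by
      apply le_antisymm (natDegree_C_mul_le _ _)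
      apply le_natDegree_of_ne_zero
      rw [coeff_C_mul]
      exact h3
    have hd2 : (C (k • nil a) * p).leadingCoeff = (k • nil a) * p.leadingCoeff := by
      rw [leadingCoeff, hd1, coeff_C_mul]
      rfl
    have hne : C (k • nil a) * p ≠ 0 := by
      rw [← leadingCoeff_ne_zero, hd2]
      exact h3
    rw [hX]
    exact ⟨by rw [natDegree_mul_X hne, hd1], by rw [leadingCoeff_mul_X, hd2]⟩
  have h4 : ((pUnit a ^ k : (Polynomial M2)ˣ) : Polynomial M2) * p =
      p + C (k • nil a) * X * p := by
    rw [pUnit_zpow, add_mul, one_mul]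
  have hlc : (((pUnit a ^ k : (Polynomial M2)ˣ) : Polynomial M2) * p).leadingCoeff =
      (k • nil a) * p.leadingCoeff := by
    rw [h4, leadingCoeff_add_of_degree_lt, hdeg.2]
    apply degree_lt_degree
    omega
  constructor
  · rw [← leadingCoeff_ne_zero, hlc]
    exact h3
  · rw [hlc, ← mul_assoc, mul_smul_comm, nil_sq, smul_zero, zero_mul]

/-- The representation of the free group by the units `1 + N T`. -/
noncomputable def nu {ι : Type} (e : ι → ℤ) : FreeGroup ι →* (Polynomial M2)ˣ :=
  FreeGroup.lift fun i => pUnit (e i)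

theorem nu_injective {ι : Type} [Nontrivial ι] (e : ι → ℤ) (he : Function.Injective e) :
    Function.Injective (nu e) := by
  have h0 : nu e = (Monoid.CoprodI.lift fun i => FreeGroup.lift fun _ => pUnit (e i)).comp
        (@freeGroupEquivCoprodI ι).toMonoidHom := by
    ext i
    simp [nu]
  rw [h0, MonoidHom.coe_comp]
  refine Function.Injective.comp ?_ (MulEquiv.injective freeGroupEquivCoprodI)
  let H : ι → Type _ := fun _i => FreeGroup Unit
  let f : ∀ i, H i →* (Polynomial M2)ˣ := fun i => FreeGroup.lift fun _ => pUnit (e i)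
  apply Monoid.CoprodI.lift_injective_of_ping_pong f _ (fun i => ppSet (e i))
  · exact fun i => ppSet_nonempty _
  · intro i j hij
    exact ppSet_disjoint _ _ (fun h => hij (he h))
  · rintro i j hij
    refine FreeGroup.freeGroupUnitEquivInt.forall_congr_left.mpr ?_
    intro n hne1
    change FreeGroup.lift (fun _ => pUnit (e i)) (FreeGroup.of () ^ n) • ppSet (e j) ⊆ ppSet (e i)
    simp only [map_zpow, FreeGroup.lift_apply_of]
    have hnne0 : n ≠ 0 := by
      rintro rfl
      apply hne1
      simp [FreeGroup.freeGroupUnitEquivInt]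
    rintro _ ⟨p, hp, rfl⟩
    exact ppSet_step (e i) (e j) n (fun h => hij (he h)) hnne0 p hp
  · show _ ∨ ∃ i, 3 ≤ Cardinal.mk (H i)
    right
    obtain ⟨i0⟩ : Nonempty ι := inferInstance
    refine ⟨i0, ?_⟩
    simp only [H]
    rw [FreeGroup.freeGroupUnitEquivInt.cardinal_eq, Cardinal.mk_denumerable]
    exact Cardinal.natCast_le_aleph0

end PingPong

end Pool.Agent.Work.MP_6f07cb_gt
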