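import Mathlib
import Pool.Agent.Work.MP_6f07cb_gt.Magnus
import Pool.Agent.Work.MP_6f07cb_gt.PP

namespace Pool.Agent.Work.MP_6f07cb_gt

section Main

open PowerSeries

theorem magnus_injective {ι : Type} [Nontrivial ι] (e : ι → ℤ) (he : Function.Injective e) :
    Function.Injective (magnus (ι := ι)) := by
  rw [injective_iff_map_eq_one]
  intro g hg
  apply (injective_iff_map_eq_one (nu e)).mp (nu_injective e he)
  let θ : FA ι →+* M2 := (FreeAlgebra.lift ℤ fun i => nil (e i)).toRingHom
  let θ' : (FA ι)⟦X⟧ →+* M2⟦X⟧ := PowerSeries.map θ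
  let inc : Polynomial M2 →+* M2⟦X⟧ := Polynomial.coeToPowerSeries.ringHom
  have h1 : (Units.map (θ' : (FA ι)⟦X⟧ →* M2⟦X⟧)).comp magnus =
      (Units.map (inc : Polynomial M2 →* M2⟦X⟧)).comp (nu e) := by
    ext i : 1
    apply Units.ext
    simp [magnus, nu, onePlus, pUnit, θ', inc, θ]
  have h2 := DFunLike.congr_fun h1 g
  simp only [MonoidHom.comp_apply, hg, map_one] at h2
  apply Units.ext
  have h3 := congrArg (fun u : (M2⟦X⟧)ˣ => (u : M2⟦X⟧)) h2
  simp only [Units.val_one, Units.coe_map, MonoidHom.coe_coe] at h3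
  have h4 : inc ((nu e g : (Polynomial M2)ˣ) : Polynomial M2) = inc 1 := by
    rw [map_one]; exact h3.symm
  have h5 : Function.Injective inc := Polynomial.coe_injective _
  simpa using h5 h4

/-- The bi-order of the free group given by Magnus expansions is preserved by every automorphism
which acts trivially on the abelianization. -/
theorem exists_biorder_preserved {ι : Type} [Nontrivial ι] (e : ι → ℤ)
    (he : Function.Injective e) :
    ∃ r : FreeGroup ι → FreeGroup ι → Prop, IsBiOrder r ∧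
      ∀ φ : FreeGroup ι →* FreeGroup ι, Function.Injective φ →
      (∀ i, Abelianization.of (φ (FreeGroup.of i)) = Abelianization.of (FreeGroup.of i)) →
      ∀ a b, r a b ↔ r (φ a) (φ b) := by
  obtain ⟨lo, hlo⟩ := exists_linearOrder_FA (ι := ι)
  refine ⟨_, isBiOrder_of_injective magnus (magnus_injective e he) magnus_coeff_zero, ?_⟩
  intro φ hφ hab
  -- the degree one coefficient factors through the abelianization
  let c1 : FreeGroup ι →* Multiplicative (FA ι) :=
    { toFun := fun g => Multiplicative.ofAdd (coeff 1 (magnus g : (FA ι)⟦X⟧))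
      map_one' := by simp
      map_mul' := by
        intro g h
        rw [← ofAdd_add, map_mul, Units.val_mul]
        congr 1
        rw [coeff_mul, Finset.Nat.antidiagonal_succ]
        simp only [Finset.Nat.antidiagonal_zero, Finset.map_singleton, Finset.sum_cons,
          Finset.sum_singleton]
        change coeff 0 (magnus g : (FA ι)⟦X⟧) * coeff 1 (magnus h : (FA ι)⟦X⟧) +
          coeff 1 (magnus g : (FA ι)⟦X⟧) * coeff 0 (magnus h : (FA ι)⟦X⟧) = _
        rw [magnus_coeff_zero, magnus_coeff_zero, one_mul, mul_one]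
        abel }
  have hc1 : ∀ i, coeff 1 (magnus (φ (FreeGroup.of i)) : (FA ι)⟦X⟧) = FreeAlgebra.ι ℤ i := by
    intro i
    have h1 : Abelianization.lift c1 (Abelianization.of (φ (FreeGroup.of i))) =
        Abelianization.lift c1 (Abelianization.of (FreeGroup.of i)) := by rw [hab i]
    rw [Abelianization.lift_apply_of, Abelianization.lift_apply_of] at h1
    have h2 : coeff 1 (magnus (φ (FreeGroup.of i)) : (FA ι)⟦X⟧) =
        coeff 1 (magnus (FreeGroup.of i) : (FA ι)⟦X⟧) := h1
    rw [h2]
    simp [magnus, onePlus, coeff_one]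
  let y : ι → (FA ι)⟦X⟧ := fun i => mk fun k => coeff (k + 1) (magnus (φ (FreeGroup.of i)) : (FA ι)⟦X⟧)
  have hy0 : ∀ i, coeff 0 (y i) = FreeAlgebra.ι ℤ i := by
    intro i
    simp only [y, coeff_mk]
    exact hc1 i
  have hy1 : ∀ i, (magnus (φ (FreeGroup.of i)) : (FA ι)⟦X⟧) = 1 + y i * X := by
    intro i
    ext d
    rcases d with _ | d
    · rw [magnus_coeff_zero]; simp
    · rw [map_add, coeff_succ_mul_X]
      simp [y, coeff_one]
  have hPhi : ∀ g, Phi y (magnus g : (FA ι)⟦X⟧) = (magnus (φ g) : (FA ι)⟦X⟧) := by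
    intro g
    have := Phi_magnus φ y hy1 g 1
    rwa [Phi_one, mul_one, mul_one] at this
  have hPhi' : ∀ g, Phi y ((magnus g : (FA ι)⟦X⟧) - 1) = (magnus (φ g) : (FA ι)⟦X⟧) - 1 := by
    intro g
    have h1 : Phi y ((magnus g : (FA ι)⟦X⟧) - 1) + Phi y 1 = Phi y (magnus g : (FA ι)⟦X⟧) := by
      rw [← Phi_add, sub_add_cancel]
    rw [Phi_one, hPhi] at h1
    exact eq_sub_of_add_eq h1
  have hpos : ∀ u : (FA ι)⟦X⟧, Pos u → Pos (Phi y u) := by
    rintro u ⟨d, h1, h2⟩
    obtain ⟨h3, h4⟩ := coeff_Phi_low y hy0 u d h1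
    exact ⟨d, h3, by rw [h4]; exact h2⟩
  intro a b
  have hab' : (φ a)⁻¹ * φ b = φ (a⁻¹ * b) := by rw [map_mul, map_inv]
  rw [hab']
  generalize a⁻¹ * b = g
  constructor
  · intro h
    rw [← hPhi']
    exact hpos _ h
  · intro h
    rcases pos_trichotomy ((magnus g : (FA ι)⟦X⟧) - 1) with h1 | h1 | h1
    · exact h1
    · exfalso
      have h2 := hPhi' g
      have h3 : Phi y (0 : (FA ι)⟦X⟧) = 0 := by
        have := Phi_add y 0 0
        simpa using this
      rw [h1, h3] at h2
      rw [← h2] at h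
      exact not_pos_zero h
    · exfalso
      have h2 := hpos _ h1
      have h3 : Phi y (-((magnus g : (FA ι)⟦X⟧) - 1)) = -((magnus (φ g) : (FA ι)⟦X⟧) - 1) := by
        rw [eq_neg_iff_add_eq_zero, ← hPhi' g, ← Phi_add, neg_add_cancel]
        have := Phi_add y 0 0
        simpa using this
      rw [h3] at h2
      exact not_pos_and_pos_neg _ h h2

end Main

end Pool.Agent.Work.MP_6f07cb_gt
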