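import Mathlib
import Pool.Agent.Work.MP_6f07cb_gt.Eigen
import Pool.Agent.Work.MP_6f07cb_gt.MagnusMain

set_option linter.unusedSimpArgs false

namespace Pool.Agent.Work.MP_6f07cb_gt

open FreeGroup (of)
open scoped LaurentPolynomial

variable {m : ℕ}

/-- The generator `s i` of the braid group. -/
abbrev sig (i : Fin m) : PresentedGroup (braidRels m) := PresentedGroup.of i

theorem artin_sig (i : Fin m) : artin m (sig i) = artinGen i := by
  simp [artin, sig]

theorem burau_cls (β : PresentedGroup (braidRels m)) (k : (winding m).ker) :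
    burau β (cls _ k) = cls _ (kerMap (artin m β).toMonoidHom (winding_artin β) k) := rfl

theorem burau_mul (a b : PresentedGroup (braidRels m)) : burau (a * b) = burau a * burau b := by
  ext x
  obtain ⟨k, rfl⟩ := cls_surj x
  change burau (a * b) (cls _ k) = burau a (burau b (cls _ k))
  rw [burau_cls, burau_cls, burau_cls]
  congr 1
  apply Subtype.ext
  simp [kerMap_coe]

theorem burau_one : burau (1 : PresentedGroup (braidRels m)) = 1 := by
  ext x
  obtain ⟨k, rfl⟩ := cls_surj x
  change burau (1 : PresentedGroup (braidRels m)) (cls _ k) = cls _ k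
  rw [burau_cls]
  congr 1

/-- The matrix of the reduced Burau representation. -/
noncomputable def mat (β : PresentedGroup (braidRels m)) : Matrix (Fin m) (Fin m) ℤ[T;T⁻¹] :=
  LinearMap.toMatrix (basisH1K m) (basisH1K m) (burau β)

theorem mat_mul (a b : PresentedGroup (braidRels m)) : mat (a * b) = mat a * mat b := by
  rw [mat, burau_mul, LinearMap.toMatrix_mul]
  rfl

theorem mat_one : mat (1 : PresentedGroup (braidRels m)) = 1 := by
  rw [mat, burau_one, LinearMap.toMatrix_one]

theorem mat_apply (β : PresentedGroup (braidRels m)) (i j : Fin m) :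
    mat β i j = (theta (artin m β (of j.succ * (of (0 : Fin (m + 1)))⁻¹))) i := by
  rw [mat, LinearMap.toMatrix_apply, basisH1K_repr, basisH1K_apply]
  have h1 : kappa (of j.succ : FreeGroup (Fin (m + 1))) = cls _ ⟨of j.succ * (of (0 : Fin (m + 1)))⁻¹, by
      have := kappa_mem (of j.succ : FreeGroup (Fin (m + 1)))
      rw [wnd_of] at this
      simpa using this⟩ := by
    unfold kappa
    congr 1
  rw [h1]
  rfl

theorem a00 : artinGen (0 : Fin 2) (of (0 : Fin 3)) = of 0 * of 1 * (of 0)⁻¹ := by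
  rw [artinGen_of]; rfl

theorem a01 : artinGen (0 : Fin 2) (of (1 : Fin 3)) = of 0 := by
  rw [artinGen_of]; rfl

theorem a02 : artinGen (0 : Fin 2) (of (2 : Fin 3)) = of 2 := by
  rw [artinGen_of]; rfl

theorem a10 : artinGen (1 : Fin 2) (of (0 : Fin 3)) = of 0 := by
  rw [artinGen_of]; rfl

theorem a11 : artinGen (1 : Fin 2) (of (1 : Fin 3)) = of 1 * of 2 * (of 1)⁻¹ := by
  rw [artinGen_of]; rfl

theorem a12 : artinGen (1 : Fin 2) (of (2 : Fin 3)) = of 1 := by
  rw [artinGen_of]; rfl

theorem th0 : theta (of (0 : Fin 3)) = 0 := theta_zero (m := 2)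

theorem th1 : theta (of (1 : Fin 3)) = (Pi.single 0 1 : W 2) := theta_succ (0 : Fin 2)

theorem th2 : theta (of (2 : Fin 3)) = (Pi.single 1 1 : W 2) := theta_succ (1 : Fin 2)

theorem T_mul_T (a b : ℤ) : (LaurentPolynomial.T a : ℤ[T;T⁻¹]) * LaurentPolynomial.T b =
    LaurentPolynomial.T (a + b) := (LaurentPolynomial.T_add a b).symm

theorem mat_s0 : mat (sig (0 : Fin 2)) =
    !![-LaurentPolynomial.T 1, -LaurentPolynomial.T 1; 0, 1] := by
  apply Matrix.ext
  intro i j
  rw [mat_apply, artin_sig]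
  fin_cases j
  · change theta (artinGen (0 : Fin 2) (of (1 : Fin 3) * (of 0)⁻¹)) i = _
    rw [map_mul, map_inv, a00, a01, theta_isCoc, theta_isCoc.inv, theta_isCoc, theta_isCoc,
      theta_isCoc.inv, th0, th1]
    simp only [wnd_mul, wnd_inv, wnd_of]
    fin_cases i
    · simp only [smul_neg, smul_smul, T_mul_T, smul_zero, neg_zero, add_zero, zero_add, smul_add]
      norm_num
    · simp only [smul_neg, smul_smul, T_mul_T, smul_zero, neg_zero, add_zero, zero_add, smul_add]
      norm_num
  · change theta (artinGen (0 : Fin 2) (of (2 : Fin 3) * (of 0)⁻¹)) i = _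
    rw [map_mul, map_inv, a00, a02, theta_isCoc, theta_isCoc.inv, theta_isCoc, theta_isCoc,
      theta_isCoc.inv, th0, th1, th2]
    simp only [wnd_mul, wnd_inv, wnd_of]
    fin_cases i
    · simp only [smul_neg, smul_smul, T_mul_T, smul_zero, neg_zero, add_zero, zero_add, smul_add]
      norm_num
    · simp only [smul_neg, smul_smul, T_mul_T, smul_zero, neg_zero, add_zero, zero_add, smul_add]
      norm_num

theorem mat_s1 : mat (sig (1 : Fin 2)) =
    !![1 - LaurentPolynomial.T 1, 1; LaurentPolynomial.T 1, 0] := by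
  apply Matrix.ext
  intro i j
  rw [mat_apply, artin_sig]
  fin_cases j
  · change theta (artinGen (1 : Fin 2) (of (1 : Fin 3) * (of 0)⁻¹)) i = _
    rw [map_mul, map_inv, a11, a10, theta_isCoc, theta_isCoc.inv, theta_isCoc, theta_isCoc,
      theta_isCoc.inv, th0, th1, th2]
    simp only [wnd_mul, wnd_inv, wnd_of]
    fin_cases i
    · simp only [smul_neg, smul_smul, T_mul_T, smul_zero, neg_zero, add_zero, zero_add, smul_add]
      norm_num
      rw [sub_eq_add_neg]
    · simp only [smul_neg, smul_smul, T_mul_T, smul_zero, neg_zero, add_zero, zero_add, smul_add]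
      norm_num
  · change theta (artinGen (1 : Fin 2) (of (2 : Fin 3) * (of 0)⁻¹)) i = _
    rw [map_mul, map_inv, a12, a10, theta_isCoc, theta_isCoc.inv, th0, th1]
    simp only [wnd_mul, wnd_inv, wnd_of]
    fin_cases i
    · simp only [smul_neg, smul_smul, T_mul_T, smul_zero, neg_zero, add_zero, zero_add, smul_add]
      norm_num
      rfl
    · simp only [smul_neg, smul_smul, T_mul_T, smul_zero, neg_zero, add_zero, zero_add, smul_add]
      norm_num

theorem inv_aux {R : Type*} [CommRing R] (a b : R) (h : a * b = 1) :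
    !![0, b; 1, 1 - b] * !![1 - a, 1; a, 0] = 1 := by
  apply Matrix.ext
  intro i j
  fin_cases i <;> fin_cases j <;> simp [Matrix.mul_apply, Fin.sum_univ_two]
  · linear_combination h
  · linear_combination -h

theorem base_aux {R : Type*} [CommRing R] (a b : R) (h : a * b = 1) :
    !![-a, -a; 0, 1] * !![0, b; 1, 1 - b] = !![-a, -a; 1, 1 - b] := by
  apply Matrix.ext
  intro i j
  fin_cases i <;> fin_cases j <;> simp [Matrix.mul_apply, Fin.sum_univ_two]
  linear_combination 0 * h

theorem T_mul_T_neg : (LaurentPolynomial.T 1 : ℤ[T;T⁻¹]) * LaurentPolynomial.T (-1) = 1 := by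
  rw [← LaurentPolynomial.T_add, add_neg_cancel, LaurentPolynomial.T_zero]

theorem mat_s1_inv : mat (sig (1 : Fin 2))⁻¹ =
    !![0, LaurentPolynomial.T (-1); 1, 1 - LaurentPolynomial.T (-1)] := by
  have h1 : mat (sig (1 : Fin 2)) * mat (sig (1 : Fin 2))⁻¹ = 1 := by
    rw [← mat_mul, mul_inv_cancel, mat_one]
  have h2 : !![0, LaurentPolynomial.T (-1); 1, 1 - LaurentPolynomial.T (-1)] *
      mat (sig (1 : Fin 2)) = 1 := by
    rw [mat_s1]
    exact inv_aux _ _ T_mul_T_neg
  calc mat (sig (1 : Fin 2))⁻¹ = 1 * mat (sig (1 : Fin 2))⁻¹ := (one_mul _).symm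
    _ = _ := by rw [← h2, mul_assoc, h1, mul_one]

/-- The matrix of the 3-braid `s 0 * (s 1)⁻¹`. -/
theorem mat_base : mat (sig (0 : Fin 2) * (sig (1 : Fin 2))⁻¹) =
    !![-LaurentPolynomial.T 1, -LaurentPolynomial.T 1; 1, 1 - LaurentPolynomial.T (-1)] := by
  rw [mat_mul, mat_s0, mat_s1_inv]
  exact base_aux _ _ T_mul_T_neg

/-- The pure 3-braid `(s 0 * (s 1)⁻¹) ^ 3`, whose closure is the link of Borromean rings. -/
def borromean : PresentedGroup (braidRels 2) := (sig (0 : Fin 2) * (sig (1 : Fin 2))⁻¹) ^ 3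

theorem cube_trace {R : Type*} [CommRing R] (a b : R) (h : a * b = 1) :
    (!![-a, -a; 1, 1 - b] * !![-a, -a; 1, 1 - b] * !![-a, -a; 1, 1 - b]).trace =
      (1 - a - b) * ((1 - a - b) ^ 2 - 3) := by
  simp [Matrix.mul_apply, Fin.sum_univ_two, Matrix.trace_fin_two]
  linear_combination (3 * a + 3 * b - 3) * h

theorem cube_det {R : Type*} [CommRing R] (a b : R) (h : a * b = 1) :
    (!![-a, -a; 1, 1 - b] * !![-a, -a; 1, 1 - b] * !![-a, -a; 1, 1 - b]).det = 1 := by
  rw [Matrix.det_mul, Matrix.det_mul, Matrix.det_fin_two_of]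
  have : -a * (1 - b) - -a * 1 = 1 := by linear_combination h
  rw [this]
  ring

theorem mat_borromean : mat borromean =
    !![-LaurentPolynomial.T 1, -LaurentPolynomial.T 1; 1, 1 - LaurentPolynomial.T (-1)] *
    !![-LaurentPolynomial.T 1, -LaurentPolynomial.T 1; 1, 1 - LaurentPolynomial.T (-1)] *
    !![-LaurentPolynomial.T 1, -LaurentPolynomial.T 1; 1, 1 - LaurentPolynomial.T (-1)] := by
  rw [borromean, pow_succ, pow_succ, pow_one, mat_mul, mat_mul, mat_base]

/-- The characteristic polynomial of the reduced Burau representation of the braid. -/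
theorem charpoly_borromean : (burau borromean).charpoly =
    Polynomial.X ^ 2 - Polynomial.C
      ((1 - LaurentPolynomial.T 1 - LaurentPolynomial.T (-1)) *
        ((1 - LaurentPolynomial.T 1 - LaurentPolynomial.T (-1)) ^ 2 - 3)) * Polynomial.X + 1 := by
  rw [← LinearMap.charpoly_toMatrix (burau borromean) (basisH1K 2)]
  change (mat borromean).charpoly = _
  rw [Matrix.charpoly_fin_two, mat_borromean, cube_trace _ _ T_mul_T_neg,
    cube_det _ _ T_mul_T_neg]
  simp


section Sign

theorem toPuiseux_T (n : ℤ) : toPuiseux (LaurentPolynomial.T n) = tPow n := by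
  have h1 : toPuiseux (LaurentPolynomial.T n) = ((tUnit ^ n : Puiseuxˣ) : Puiseux) := by
    simp [toPuiseux]
  rw [h1]
  induction n using Int.induction_on with
  | zero => simp [tPow_zero]
  | succ n ih =>
    rw [zpow_add, zpow_one, Units.val_mul, ih (by simp [toPuiseux]), tPow_add]
    rfl
  | pred n ih =>
    rw [sub_eq_add_neg, zpow_add, zpow_neg_one, Units.val_mul, ih (by simp [toPuiseux]), tPow_add]
    rfl

/-- The trace of the matrix of the braid has two negative eigenvalues. -/
theorem neg_of_root (x t s : Lex (HahnSeries ℚ ℝ)) (ht : 0 < t) (hs : 3 < s)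
    (h : x ^ 2 - ((1 - t - s) * ((1 - t - s) ^ 2 - 3)) * x + 1 = 0) : x < 0 := by
  by_contra hx
  push Not at hx
  have h1 : (1 - t - s) < -2 := by linarith
  have h2 : 0 < (1 - t - s) ^ 2 - 3 := by nlinarith
  have h3 : (1 - t - s) * ((1 - t - s) ^ 2 - 3) < 0 := mul_neg_of_neg_of_pos (by linarith) h2
  have h4 : 0 ≤ -((1 - t - s) * ((1 - t - s) ^ 2 - 3)) * x := mul_nonneg (by linarith) hx
  have h5 : 0 ≤ x ^ 2 := sq_nonneg x
  linarith

theorem borromean_neg (lam : Puiseux) (h : IsBurauEigenvalue borromean lam) : Puiseux.IsNeg lam := by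
  unfold IsBurauEigenvalue at h
  rw [charpoly_borromean] at h
  simp only [Polynomial.IsRoot.def, Polynomial.eval_map, Polynomial.eval₂_add,
    Polynomial.eval₂_sub, Polynomial.eval₂_mul, Polynomial.eval₂_pow, Polynomial.eval₂_X,
    Polynomial.eval₂_C, Polynomial.eval₂_one] at h
  simp only [map_mul, map_sub, map_pow, map_one, map_ofNat, toPuiseux_T] at h
  have h' := congrArg (fun z : Puiseux => toLex (z : HahnSeries ℚ ℝ)) h
  have h2 : (toLex (lam : HahnSeries ℚ ℝ)) < 0 := by
    apply neg_of_root (toLex (lam : HahnSeries ℚ ℝ)) (toLex (tPow 1 : HahnSeries ℚ ℝ))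
      (toLex (tPow (-1) : HahnSeries ℚ ℝ))
    · rw [← HahnSeries.leadingCoeff_pos_iff]
      simp [tPow]
    · have h3 : (ofLex (3 : Lex (HahnSeries ℚ ℝ))) = HahnSeries.single (0 : ℚ) (3 : ℝ) := rfl
      rw [HahnSeries.lt_iff]
      refine ⟨-1, ?_, ?_⟩
      · intro j hj
        have hj0 : j ≠ 0 := by rintro rfl; linarith
        rw [h3, HahnSeries.coeff_single_of_ne hj0]
        have hj1 : j ≠ ((-1 : ℤ) : ℚ) := by
          push_cast
          exact hj.ne
        simp only [tPow, ofLex_toLex]
        rw [HahnSeries.coeff_single_of_ne hj1]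
      · rw [h3, HahnSeries.coeff_single_of_ne (by norm_num)]
        simp [tPow]
    · exact h'
  rwa [← HahnSeries.leadingCoeff_neg_iff] at h2

end Sign

end Pool.Agent.Work.MP_6f07cb_gt
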