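import Mathlib
import Pool.Agent.Work.MP_6f07cb_gt.Compute

namespace Pool.Agent.Work.MP_6f07cb_gt

open FreeGroup (of)

/-- A braid which acts trivially on the abelianization of the free group (a pure braid) is
order-preserving. -/
theorem orderPreserving_of_pure {m : ℕ} (hm : 1 ≤ m) (β : PresentedGroup (braidRels m))
    (h : ∀ i, Abelianization.of (artin m β (of i)) = Abelianization.of (of i)) :
    OrderPreserving β := by
  have : Nontrivial (Fin (m + 1)) := by
    rw [Fin.nontrivial_iff_two_le]; omega
  obtain ⟨r, hr, hr2⟩ := exists_biorder_preserved (ι := Fin (m + 1)) (fun i => ((i : ℕ) : ℤ))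
    (fun a b hab => by
      have hab' : ((a : ℕ) : ℤ) = ((b : ℕ) : ℤ) := hab
      apply Fin.ext
      exact_mod_cast hab')
  exact ⟨r, hr, fun a b => hr2 (artin m β).toMonoidHom (artin m β).injective h a b⟩

/-- Action on the abelianization. -/
theorem ab_mul {G : Type*} [Group G] (φ ψ : MulAut G) (x : G) :
    Abelianization.of ((φ * ψ) x) = Abelianization.map φ.toMonoidHom (Abelianization.of (ψ x)) := by
  rfl

theorem ab_congr {G : Type*} [Group G] (φ : MulAut G) (x y : G)
    (h : Abelianization.of x = Abelianization.of y) :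
    Abelianization.of (φ x) = Abelianization.of (φ y) := by
  have := congrArg (Abelianization.map φ.toMonoidHom) h
  exact this

theorem inv10 : (artinGen (1 : Fin 2))⁻¹ (of (0 : Fin 3)) = of 0 := by
  rw [MulAut.inv_apply, MulEquiv.symm_apply_eq, a10]

theorem inv11 : Abelianization.of ((artinGen (1 : Fin 2))⁻¹ (of (1 : Fin 3))) =
    Abelianization.of (of 2) := by
  have : (artinGen (1 : Fin 2))⁻¹ (of (1 : Fin 3)) = of 2 := by
    rw [MulAut.inv_apply, MulEquiv.symm_apply_eq, a12]
  rw [this]

theorem inv12 : Abelianization.of ((artinGen (1 : Fin 2))⁻¹ (of (2 : Fin 3))) =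
    Abelianization.of (of 1) := by
  have : (artinGen (1 : Fin 2))⁻¹ (of (2 : Fin 3)) = (of 2)⁻¹ * of 1 * of 2 := by
    rw [MulAut.inv_apply, MulEquiv.symm_apply_eq, map_mul, map_mul, map_inv, a12, a11]
    group
  rw [this, map_mul, map_mul, map_inv]
  rw [mul_comm, ← mul_assoc, mul_inv_cancel, one_mul]

/-- The Artin automorphism of `s 0 * (s 1)⁻¹`. -/
def b0 : MulAut (FreeGroup (Fin (2 + 1))) := artinGen (0 : Fin 2) * (artinGen (1 : Fin 2))⁻¹

theorem b00 : Abelianization.of (b0 (of (0 : Fin 3))) = Abelianization.of (of 1) := by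
  have : b0 (of (0 : Fin 3)) = of 0 * of 1 * (of 0)⁻¹ := by
    rw [b0, MulAut.mul_apply, inv10, a00]
  rw [this, map_mul, map_mul, map_inv, mul_comm, ← mul_assoc, inv_mul_cancel, one_mul]

theorem b01 : Abelianization.of (b0 (of (1 : Fin 3))) = Abelianization.of (of 2) := by
  rw [b0, MulAut.mul_apply, ab_congr _ _ _ inv11, a02]

theorem b02 : Abelianization.of (b0 (of (2 : Fin 3))) = Abelianization.of (of 0) := by
  rw [b0, MulAut.mul_apply, ab_congr _ _ _ inv12, a01]

theorem artin_borromean : artin 2 borromean = b0 ^ 3 := by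
  rw [borromean, map_pow, map_mul, map_inv, artin_sig, artin_sig, b0]

theorem borromean_ab (i : Fin 3) :
    Abelianization.of (artin 2 borromean (of i)) = Abelianization.of (of i) := by
  have h3 : artin 2 borromean (of i) = b0 (b0 (b0 (of i))) := by
    rw [artin_borromean, pow_succ, pow_succ, pow_one, MulAut.mul_apply, MulAut.mul_apply]
  rw [h3]
  fin_cases i
  · change Abelianization.of (b0 (b0 (b0 (of (0 : Fin 3))))) = Abelianization.of (of 0)
    rw [ab_congr _ _ _ (ab_congr _ _ _ b00), ab_congr _ _ _ b01, b02]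
  · change Abelianization.of (b0 (b0 (b0 (of (1 : Fin 3))))) = Abelianization.of (of 1)
    rw [ab_congr _ _ _ (ab_congr _ _ _ b01), ab_congr _ _ _ b02, b00]
  · change Abelianization.of (b0 (b0 (b0 (of (2 : Fin 3))))) = Abelianization.of (of 2)
    rw [ab_congr _ _ _ (ab_congr _ _ _ b02), ab_congr _ _ _ b00, b01]

theorem borromean_orderPreserving : OrderPreserving borromean :=
  orderPreserving_of_pure (by norm_num) borromean borromean_ab

end Pool.Agent.Work.MP_6f07cb_gt
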